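import Mathlib
import Pool.Agent.Y729.FW.Cond
import Pool.Agent.Y729.DB.Unram
import Pool.Agent.Helper259.HtExt

/-!
# The Legendre parameter over an extension where the two-torsion is rational
-/

set_option autoImplicit false

namespace Pool.Agent.Y729.AE

open NumberField IsDedekindDomain Module
open Pool.Agent.H691R3 (fv fv_na)
open Pool.Agent.TH876.FH (FullTwo GoodAt badNorm)
open Pool.Agent.Y729.FW (leg six_height fv_eq_one_iff)

section

variable {L M : Type} [Field L] [NumberField L] [Field M] [NumberField M] [Algebra L M]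

theorem val_ext (v : HeightOneSpectrum (𝓞 L)) (w : HeightOneSpectrum (𝓞 M))
    (h : w.asIdeal.comap (algebraMap (𝓞 L) (𝓞 M)) = v.asIdeal) :
    ∃ e : ℕ, ∀ x : L, w.valuation M (algebraMap L M x) = v.valuation L x ^ e := by
  have : w.asIdeal.LiesOver v.asIdeal := ⟨h.symm⟩
  exact ⟨_, fun x => (HeightOneSpectrum.valuation_liesOver M v w x).symm⟩

theorem good_ext (E : WeierstrassCurve L) (v : HeightOneSpectrum (𝓞 L))
    (w : HeightOneSpectrum (𝓞 M))
    (h : w.asIdeal.comap (algebraMap (𝓞 L) (𝓞 M)) = v.asIdeal) (hg : GoodAt v E) :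
    GoodAt w (E.map (algebraMap L M)) := by
  obtain ⟨e, he⟩ := val_ext v w h
  obtain ⟨C, h1, h2, h3, h4, h6, hΔ⟩ := hg
  have key : ∀ x : L, v.valuation L x ≤ 1 → w.valuation M (algebraMap L M x) ≤ 1 := by
    intro x hx
    rw [he]
    exact pow_le_one' hx e
  refine ⟨C.map (algebraMap L M), ?_⟩
  rw [WeierstrassCurve.map_variableChange]
  refine ⟨key _ h1, key _ h2, key _ h3, key _ h4, key _ h6, ?_⟩
  rw [WeierstrassCurve.map_Δ, he, hΔ, one_pow]

/-- the sum over primes lying above -/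
theorem sum_above (S : Finset (HeightOneSpectrum (𝓞 L))) (F : Finset (HeightOneSpectrum (𝓞 M)))
    (h : ∀ w ∈ F, ∃ v ∈ S, w.asIdeal.comap (algebraMap (𝓞 L) (𝓞 M)) = v.asIdeal) :
    ∑ w ∈ F, Real.log (Ideal.absNorm w.asIdeal : ℝ) ≤
      finrank L M * ∑ v ∈ S, Real.log (Ideal.absNorm v.asIdeal : ℝ) := by
  classical
  have hfr : finrank (𝓞 L) (𝓞 M) = finrank L M :=
    (IsFractionRing.finrank_eq (𝓞 L) L (𝓞 M) M).symm
  have hN0 : ∀ v : HeightOneSpectrum (𝓞 L), 0 < Ideal.absNorm v.asIdeal := fun v =>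
    Nat.pos_of_ne_zero (fun h => v.ne_bot (Ideal.absNorm_eq_zero_iff.1 h))
  have hN0' : ∀ v : HeightOneSpectrum (𝓞 M), 0 < Ideal.absNorm v.asIdeal := fun v =>
    Nat.pos_of_ne_zero (fun h => v.ne_bot (Ideal.absNorm_eq_zero_iff.1 h))
  have hinj : Set.InjOn (fun v : HeightOneSpectrum (𝓞 M) => v.asIdeal)
      (F : Set (HeightOneSpectrum (𝓞 M))) :=
    fun a _ b _ hab => HeightOneSpectrum.ext hab
  have h1 : (∏ w ∈ F, w.asIdeal) ∣
      ∏ v ∈ S, v.asIdeal.map (algebraMap (𝓞 L) (𝓞 M)) := by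
    rw [← Finset.prod_image (f := fun I : Ideal (𝓞 M) => I) hinj]
    refine Finset.prod_primes_dvd _ ?_ ?_
    · intro I hI
      obtain ⟨w, _, rfl⟩ := Finset.mem_image.1 hI
      exact w.prime
    · intro I hI
      obtain ⟨w, hw, rfl⟩ := Finset.mem_image.1 hI
      obtain ⟨v, hv, hwv⟩ := h w hw
      refine dvd_trans ?_ (Finset.dvd_prod_of_mem _ hv)
      rw [Ideal.dvd_iff_le, Ideal.map_le_iff_le_comap, hwv]
  have h2 := map_dvd (Ideal.absNorm (S := 𝓞 M)) h1
  rw [map_prod, map_prod] at h2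
  simp only [Ideal.absNorm_algebraMap, hfr] at h2
  have h3 := Nat.le_of_dvd (Finset.prod_pos fun v _ => pow_pos (hN0 v) _) h2
  have h4 : Real.log ((∏ w ∈ F, Ideal.absNorm w.asIdeal : ℕ) : ℝ) ≤
      Real.log ((∏ v ∈ S, Ideal.absNorm v.asIdeal ^ finrank L M : ℕ) : ℝ) := by
    refine Real.log_le_log ?_ (by exact_mod_cast h3)
    exact_mod_cast Finset.prod_pos fun v _ => hN0' v
  rw [Nat.cast_prod, Nat.cast_prod, Real.log_prod (fun v _ => by exact_mod_cast (hN0' v).ne'),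
    Real.log_prod (fun v _ => by exact_mod_cast (pow_pos (hN0 v) _).ne')] at h4
  refine h4.trans (le_of_eq ?_)
  rw [Finset.mul_sum]
  refine Finset.sum_congr rfl fun v _ => ?_
  rw [Nat.cast_pow, Real.log_pow]

theorem lh_pair {K : Type} [Field K] [NumberField K] (x : K) :
    Height.logHeight₁ x = Height.logHeight ![x, 1] := by
  rw [Height.logHeight₁_eq_log_mulHeight₁, Height.logHeight_eq_log_mulHeight,
    Height.mulHeight₁_eq_mulHeight]

theorem ht_ext (x : L) : Height.logHeight₁ (algebraMap L M x) =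
    finrank L M * Height.logHeight₁ x := by
  rw [lh_pair, lh_pair, ← Pool.Agent.Helper259.HtExt.logHeight_ext (L := M)]
  congr 1
  funext i
  fin_cases i
  · rfl
  · simp

/-- the sum of `log N(v)` over the bad primes -/
theorem bad_sum (E : WeierstrassCurve L) (hE : E.Δ ≠ 0) :
    ∃ S : Finset (HeightOneSpectrum (𝓞 L)), (∀ v, v ∈ S ↔ ¬ GoodAt v E) ∧
      ∑ v ∈ S, Real.log (Ideal.absNorm v.asIdeal : ℝ) = Real.log (badNorm E) := by
  have hbad := Pool.Agent.TH876.TT.bad L E hE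
  refine ⟨hbad.toFinset, fun v => by rw [Set.Finite.mem_toFinset]; rfl, ?_⟩
  unfold badNorm
  rw [finprod_mem_eq_finite_toFinset_prod _ hbad, Real.log_prod]
  intro v _
  have : (1 : ℝ) < (Ideal.absNorm v.asIdeal : ℝ) := by
    exact_mod_cast NumberField.HeightOneSpectrum.one_lt_absNorm v
  linarith

/-- the primes above `S` and above `m` -/
theorem exists_T (m : ℕ) (hm : m ≠ 0) (S : Finset (HeightOneSpectrum (𝓞 L))) :
    ∃ T : Finset (HeightOneSpectrum (𝓞 M)),
      (∀ w, w ∉ T → fv w (m : M) = 1 ∧ ∀ v ∈ S,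
        w.asIdeal.comap (algebraMap (𝓞 L) (𝓞 M)) ≠ v.asIdeal) ∧
      ∑ w ∈ T, Real.log (Ideal.absNorm w.asIdeal : ℝ) ≤
        finrank L M * ∑ v ∈ S, Real.log (Ideal.absNorm v.asIdeal : ℝ) +
          finrank ℚ M * Real.log m := by
  classical
  have hm0 : (m : M) ≠ 0 := Nat.cast_ne_zero.2 hm
  have h2 := Pool.Agent.H691R3.fv_support_finite hm0
  set J : Ideal (𝓞 M) := ∏ v ∈ S, v.asIdeal.map (algebraMap (𝓞 L) (𝓞 M)) with hJ
  have hJ0 : J ≠ 0 := by
    rw [hJ]
    refine Finset.prod_ne_zero_iff.2 fun v _ => ?_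
    intro h
    apply v.ne_bot
    rw [Ideal.zero_eq_bot, Ideal.map_eq_bot_iff_of_injective
      (FaithfulSMul.algebraMap_injective _ _)] at h
    exact h
  have hfin := Ideal.finite_factors hJ0
  set T1 : Finset (HeightOneSpectrum (𝓞 M)) := hfin.toFinset.filter fun w => ∃ v ∈ S,
    w.asIdeal.comap (algebraMap (𝓞 L) (𝓞 M)) = v.asIdeal with hT1
  refine ⟨T1 ∪ h2.toFinset, ?_, ?_⟩
  · intro w hw
    rw [Finset.mem_union, not_or] at hw
    refine ⟨?_, ?_⟩
    · have := hw.2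
      rw [Set.Finite.mem_toFinset] at this
      by_contra h
      exact this h
    · intro v hv hwv
      apply hw.1
      rw [hT1, Finset.mem_filter, Set.Finite.mem_toFinset]
      refine ⟨?_, v, hv, hwv⟩
      show w.asIdeal ∣ J
      refine dvd_trans ?_ (Finset.dvd_prod_of_mem _ hv)
      rw [Ideal.dvd_iff_le, Ideal.map_le_iff_le_comap, hwv]
  · have e1 := sum_above S T1 (fun w hw => (Finset.mem_filter.1 hw).2)
    have e2 := Pool.Agent.Y729.FW.primes_above (K := M) m hm h2.toFinset (fun v hv => by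
      rw [Set.Finite.mem_toFinset] at hv
      exact hv)
    have e3 : ∑ w ∈ T1 ∪ h2.toFinset, Real.log (Ideal.absNorm w.asIdeal : ℝ) ≤
        ∑ w ∈ T1, Real.log (Ideal.absNorm w.asIdeal : ℝ) +
          ∑ w ∈ h2.toFinset, Real.log (Ideal.absNorm w.asIdeal : ℝ) := by
      rw [← Finset.sum_union_inter]
      have : 0 ≤ ∑ v ∈ T1 ∩ h2.toFinset, Real.log (Ideal.absNorm v.asIdeal : ℝ) :=
        Finset.sum_nonneg fun v _ => Pool.Agent.Y729.FW.logN_nonneg v
      linarith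
    linarith

/-- **The Legendre parameter** over a field where the two-torsion is rational -/
theorem ext_leg (E : WeierstrassCurve L) (hE : E.Δ ≠ 0)
    (h2 : FullTwo (E.map (algebraMap L M))) :
    ∃ l : M, l ≠ 0 ∧ l ≠ 1 ∧
      algebraMap L M (E.c₄ ^ 3 / E.Δ) * (l ^ 2 * (1 - l) ^ 2) = 256 * (l ^ 2 - l + 1) ^ 3 ∧
      ∀ w : HeightOneSpectrum (𝓞 M), fv w (2 : M) = 1 →
        (∀ v : HeightOneSpectrum (𝓞 L), w.asIdeal.comap (algebraMap (𝓞 L) (𝓞 M)) = v.asIdeal →
          GoodAt v E) → fv w l = 1 := by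
  have hE' : (E.map (algebraMap L M)).Δ ≠ 0 := by
    rw [WeierstrassCurve.map_Δ]
    exact (map_ne_zero _).2 hE
  obtain ⟨l, h0, h1, hrel, hgood⟩ := leg M (E.map (algebraMap L M)) hE' h2
  refine ⟨l, h0, h1, ?_, ?_⟩
  · rw [WeierstrassCurve.map_Δ, WeierstrassCurve.map_c₄] at hrel
    rw [map_div₀, map_pow]
    exact hrel
  · intro w hw2 hw
    rw [fv_eq_one_iff] at hw2 ⊢
    have hne : w.asIdeal.comap (algebraMap (𝓞 L) (𝓞 M)) ≠ ⊥ := by
      intro h
      apply w.ne_bot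
      exact Ideal.eq_bot_of_comap_eq_bot h
    set v : HeightOneSpectrum (𝓞 L) := ⟨w.asIdeal.comap (algebraMap (𝓞 L) (𝓞 M)),
      Ideal.IsPrime.comap _, hne⟩ with hv
    exact (hgood w (good_ext E v w rfl (hw v rfl)) hw2).1

end

end Pool.Agent.Y729.AE
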