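import Mathlib
import Pool.Agent.Y729.AE.Ext
import Pool.Agent.Y729.TU.Unit

/-!
# The modular invariants of the curves with few bad primes, uniformly in the field
-/

set_option autoImplicit false

namespace Pool.Agent.Y729.AE

open NumberField IsDedekindDomain Module
open Pool.Agent.H691R3 (fv fv_na)
open Pool.Agent.TH876.FH (FullTwo GoodAt badNorm)
open Pool.Agent.Y729.FW (leg six_height fv_eq_one_iff logN_nonneg)
open Pool.Agent.Y729.TU (tunit_card)

/-- sets of primes with small product -/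
theorem sets_card (n : ℕ) {ε : ℝ} (hε : 0 < ε) : ∃ D : ℝ, 0 < D ∧
    ∀ (K : Type) [Field K] [NumberField K], Module.finrank ℚ K = n →
      ∀ (c : ℝ) (Q : Finset (Finset (HeightOneSpectrum (𝓞 K)))),
        (∀ U ∈ Q, ∑ v ∈ U, Real.log (Ideal.absNorm v.asIdeal : ℝ) ≤ c) →
        (Q.card : ℝ) ≤ D * Real.exp ((1 + ε) * c) := by
  classical
  obtain ⟨D, hD, h⟩ := Pool.Agent.W222.UABC.pairs_card n hε
  refine ⟨D, hD, ?_⟩
  intro K _ _ hK c Q hQ
  rcases Q.eq_empty_or_nonempty with rfl | ⟨U0, hU0⟩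
  · simp only [Finset.card_empty, Nat.cast_zero]
    positivity
  have hc : 0 ≤ c := (Finset.sum_nonneg fun v _ => logN_nonneg v).trans (hQ U0 hU0)
  set f : Finset (HeightOneSpectrum (𝓞 K)) → Pool.Agent.W223.AK.Idl K := fun U =>
    Finsupp.onFinset U (fun v => if v ∈ U then 1 else 0) (by
      intro v hv
      by_contra hn
      rw [if_neg hn] at hv
      exact hv rfl) with hf
  have hsupp : ∀ U, (f U).support = U := by
    intro U
    ext v
    rw [Finsupp.mem_support_iff]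
    simp only [hf, Finsupp.onFinset_apply]
    by_cases hv : v ∈ U
    · simp [hv]
    · simp [hv]
  have hinj : Function.Injective fun U => (f U, (0 : Pool.Agent.W223.AK.Idl K)) := by
    intro U V hUV
    have : f U = f V := (Prod.mk.injEq _ _ _ _ ▸ hUV : _ ∧ _).1
    rw [← hsupp U, ← hsupp V, this]
  have hrl : ∀ U, Pool.Agent.W223.AK.rl (f U) =
      ∑ v ∈ U, Real.log (Ideal.absNorm v.asIdeal : ℝ) := by
    intro U
    unfold Pool.Agent.W223.AK.rl
    rw [hsupp]
    rfl
  have hlen : ∀ U, Pool.Agent.W223.AK.len (f U) =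
      ∑ v ∈ U, Real.log (Ideal.absNorm v.asIdeal : ℝ) := by
    intro U
    unfold Pool.Agent.W223.AK.len
    rw [hsupp]
    refine Finset.sum_congr rfl fun v hv => ?_
    simp only [hf, Finsupp.onFinset_apply, if_pos hv, Nat.cast_one, one_mul]
    rfl
  rw [← Finset.card_image_of_injective Q hinj]
  refine (h K hK c c _ ?_).trans (le_of_eq ?_)
  · intro t ht
    obtain ⟨U, hU, rfl⟩ := Finset.mem_image.1 ht
    have h0 : Pool.Agent.W223.AK.rl (0 : Pool.Agent.W223.AK.Idl K) = 0 := by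
      unfold Pool.Agent.W223.AK.rl
      simp
    have h1 : Pool.Agent.W223.AK.len (0 : Pool.Agent.W223.AK.Idl K) = 0 := by
      unfold Pool.Agent.W223.AK.len
      simp
    simp only [hrl, hlen, h0, h1, add_zero]
    exact ⟨hQ U hU, hQ U hU, hc⟩
  · congr 2
    ring

/-- the data of the curves -/
def Dat (L M : Type) [Field L] [NumberField L] [Field M] [NumberField M] [Algebra L M]
    (R : Finset (HeightOneSpectrum (𝓞 L))) (X Z : ℝ) (j : L) : Prop :=
  Height.logHeight₁ j ≤ X ∧ ∃ E : WeierstrassCurve L, E.Δ ≠ 0 ∧ E.c₄ ^ 3 / E.Δ = j ∧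
    FullTwo (E.map (algebraMap L M)) ∧ (∀ v ∈ R, ¬ GoodAt v E ∨ v.valuation L (2 : L) ≠ 1) ∧
    Real.log (badNorm E) ≤ Z

/-- the bad primes together with the primes above two -/
theorem dat_S {L M : Type} [Field L] [NumberField L] [Field M] [NumberField M] [Algebra L M]
    {R : Finset (HeightOneSpectrum (𝓞 L))} {X Z : ℝ} {j : L} (h : Dat L M R X Z j) :
    ∃ S : Finset (HeightOneSpectrum (𝓞 L)), R ⊆ S ∧
      ∑ v ∈ S, Real.log (Ideal.absNorm v.asIdeal : ℝ) ≤ Z + finrank ℚ L * Real.log 2 ∧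
      ∃ l : M, l ≠ 0 ∧ l ≠ 1 ∧
        algebraMap L M j * (l ^ 2 * (1 - l) ^ 2) = 256 * (l ^ 2 - l + 1) ^ 3 ∧
        ∀ w : HeightOneSpectrum (𝓞 M), fv w (2 : M) = 1 →
          (∀ v ∈ S, w.asIdeal.comap (algebraMap (𝓞 L) (𝓞 M)) ≠ v.asIdeal) → fv w l = 1 := by
  classical
  obtain ⟨-, E, hΔ, hj, h2, hR, hZ⟩ := h
  obtain ⟨S1, hS1, hS1'⟩ := bad_sum E hΔ
  have hfin2 := Pool.Agent.H691R3.fv_support_finite (K := L) (x := ((2 : ℕ) : L)) (by norm_num)
  set S2 := hfin2.toFinset with hS2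
  have hS2m : ∀ v, v ∈ S2 ↔ fv v ((2 : ℕ) : L) ≠ 1 := by
    intro v
    rw [hS2, Set.Finite.mem_toFinset]
    rfl
  obtain ⟨l, h0, h1, hrel, hgood⟩ := ext_leg (M := M) E hΔ h2
  refine ⟨S1 ∪ S2, ?_, ?_, l, h0, h1, by rw [← hj]; exact hrel, ?_⟩
  · intro v hv
    rw [Finset.mem_union, hS1, hS2m]
    rcases hR v hv with h3 | h3
    · exact Or.inl h3
    · right
      intro h4
      push_cast at h4
      rw [fv_eq_one_iff] at h4
      exact h3 h4
  · have e2 := Pool.Agent.Y729.FW.primes_above (K := L) 2 two_ne_zero S2 (fun v hv =>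
      (hS2m v).1 hv)
    have e3 : ∑ w ∈ S1 ∪ S2, Real.log (Ideal.absNorm w.asIdeal : ℝ) ≤
        ∑ w ∈ S1, Real.log (Ideal.absNorm w.asIdeal : ℝ) +
          ∑ w ∈ S2, Real.log (Ideal.absNorm w.asIdeal : ℝ) := by
      rw [← Finset.sum_union_inter]
      have : 0 ≤ ∑ v ∈ S1 ∩ S2, Real.log (Ideal.absNorm v.asIdeal : ℝ) :=
        Finset.sum_nonneg fun v _ => logN_nonneg v
      linarith
    push_cast at e2
    linarith
  · intro w hw hS
    refine hgood w hw fun v hv => ?_
    by_contra hb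
    exact hS v (Finset.mem_union_left _ ((hS1 v).2 hb)) hv

/-- **The fibre lemma** -/
theorem fiber (n m : ℕ) {ε : ℝ} (hε : 0 < ε) : ∃ D : ℝ, 0 < D ∧
    ∀ (L M : Type) [Field L] [NumberField L] [Field M] [NumberField M] [Algebra L M],
      finrank ℚ L = n → finrank ℚ M = m →
      ∀ (R : Finset (HeightOneSpectrum (𝓞 L))) (X Z : ℝ), 0 ≤ X → 0 ≤ Z → ∀ J : Finset L,
        (∀ j ∈ J, Dat L M R X Z j) →
        (J.card : ℝ) ≤ D * Real.exp (Z - ∑ v ∈ R, Real.log (Ideal.absNorm v.asIdeal : ℝ) +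
          ε * (X + Z)) := by
  classical
  obtain ⟨c, hc0, hc⟩ := six_height
  obtain ⟨D1, hD1, h1⟩ := sets_card n (show 0 < ε / 2 by positivity)
  obtain ⟨D2, hD2, h2⟩ := tunit_card m (show 0 < ε / (2 * (m + 1)) by positivity)
  have hl2 : 0 ≤ Real.log 2 := Real.log_nonneg (by norm_num)
  set A : ℝ := n * Real.log 2 + ε / 2 * (n * Real.log 2) +
    ε / (2 * (m + 1)) * (c * m + 2 * m * Real.log 2) with hA
  refine ⟨D1 * D2 * Real.exp A, by positivity, ?_⟩
  intro L M _ _ _ _ _ hL hM R X Z hX hZ J hJ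
  have hLM : finrank ℚ L * finrank L M = finrank ℚ M := finrank_mul_finrank ℚ L M
  have hfd : FiniteDimensional L M := Module.Finite.of_restrictScalars_finite ℚ L M
  have hn1 : 1 ≤ finrank ℚ L := Module.finrank_pos
  have hk : (finrank L M : ℝ) ≤ m := by
    have h3 : finrank L M ≤ m := by
      rw [← hM, ← hLM]
      exact Nat.le_mul_of_pos_left _ hn1
    exact_mod_cast h3
  have hkn : (finrank L M : ℝ) * n = m := by
    rw [← hL, ← hM, ← hLM]
    push_cast
    ring
  set κ : ℝ := (finrank L M : ℝ) with hκ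
  have hκ0 : 0 ≤ κ := Nat.cast_nonneg _
  set r : ℝ := ∑ v ∈ R, Real.log (Ideal.absNorm v.asIdeal : ℝ) with hr
  have hr0 : 0 ≤ r := Finset.sum_nonneg fun v _ => logN_nonneg v
  -- choose the data
  have hex : ∀ j : L, ∃ (S : Finset (HeightOneSpectrum (𝓞 L))) (l : M), j ∈ J → R ⊆ S ∧
      ∑ v ∈ S, Real.log (Ideal.absNorm v.asIdeal : ℝ) ≤ Z + n * Real.log 2 ∧ l ≠ 0 ∧ l ≠ 1 ∧
        algebraMap L M j * (l ^ 2 * (1 - l) ^ 2) = 256 * (l ^ 2 - l + 1) ^ 3 ∧
        ∀ w : HeightOneSpectrum (𝓞 M), fv w (2 : M) = 1 →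
          (∀ v ∈ S, w.asIdeal.comap (algebraMap (𝓞 L) (𝓞 M)) ≠ v.asIdeal) → fv w l = 1 := by
    intro j
    by_cases hj : j ∈ J
    · obtain ⟨S, hRS, hS, l, h3, h4, h5, h6⟩ := dat_S (hJ j hj)
      rw [hL] at hS
      exact ⟨S, l, fun _ => ⟨hRS, hS, h3, h4, h5, h6⟩⟩
    · exact ⟨∅, 0, fun h => absurd h hj⟩
  choose S l hSl using hex
  -- the sets
  set Q : Finset (Finset (HeightOneSpectrum (𝓞 L))) := J.image fun j => S j \ R with hQ
  have hQs : ∀ U ∈ Q, ∑ v ∈ U, Real.log (Ideal.absNorm v.asIdeal : ℝ) ≤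
      Z + n * Real.log 2 - r := by
    intro U hU
    obtain ⟨j, hj, rfl⟩ := Finset.mem_image.1 hU
    obtain ⟨hRS, hS, -⟩ := hSl j hj
    have := Finset.sum_sdiff hRS (f := fun v : HeightOneSpectrum (𝓞 L) =>
      Real.log (Ideal.absNorm v.asIdeal : ℝ))
    linarith
  have hQc := h1 L hL _ Q hQs
  -- one set
  have hone : ∀ U ∈ Q, ((J.filter fun j => S j \ R = U).card : ℝ) ≤
      D2 * Real.exp (ε / (2 * (m + 1)) * (m * X + c * m + (m * Z + 2 * m * Real.log 2))) := by
    intro U hU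
    set G := J.filter fun j => S j \ R = U with hG
    have hGm : ∀ j ∈ G, j ∈ J ∧ S j \ R = U := fun j hj => Finset.mem_filter.1 hj
    obtain ⟨T, hT1, hT2⟩ := exists_T (M := M) 2 two_ne_zero (U ∪ R)
    have hinj : Set.InjOn l (G : Set L) := by
      intro j hj k hk hjk
      obtain ⟨-, -, h3, h4, h5, -⟩ := hSl j (hGm j (Finset.mem_coe.1 hj)).1
      obtain ⟨-, -, -, -, h5', -⟩ := hSl k (hGm k (Finset.mem_coe.1 hk)).1
      rw [← hjk, ← h5] at h5'
      have h7 : (l j) ^ 2 * (1 - l j) ^ 2 ≠ 0 :=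
        mul_ne_zero (pow_ne_zero _ h3) (pow_ne_zero _ (sub_ne_zero.2 h4.symm))
      exact (algebraMap L M).injective (mul_right_cancel₀ h7 h5'.symm)
    rw [← Finset.card_image_of_injOn hinj]
    have hX' : 0 ≤ m * X + c * m := by positivity
    refine (h2 M hM T (m * X + c * m) _ hX' ?_).trans ?_
    · intro x hx
      obtain ⟨j, hj, rfl⟩ := Finset.mem_image.1 hx
      obtain ⟨hjJ, hjU⟩ := hGm j hj
      obtain ⟨hRS, hS, h3, h4, h5, h6⟩ := hSl j hjJ
      refine ⟨h3, h4, ?_, ?_⟩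
      · intro w hw
        obtain ⟨h7, h8⟩ := hT1 w hw
        push_cast at h7
        refine h6 w h7 fun v hv => h8 v ?_
        rw [Finset.mem_union, ← hjU, Finset.mem_sdiff]
        by_cases hvR : v ∈ R
        · exact Or.inr hvR
        · exact Or.inl ⟨hv, hvR⟩
      · have h7 := (hc M (algebraMap L M j) (l j) h3 h4 h5).1
        rw [ht_ext, hM] at h7
        have h8 : (finrank L M : ℝ) * Height.logHeight₁ j ≤ m * X :=
          mul_le_mul hk (hJ j hjJ).1 (Height.zero_le_logHeight₁ j) (Nat.cast_nonneg _)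
        have h9 : 0 ≤ Height.logHeight₁ (l j) := Height.zero_le_logHeight₁ _
        have h10 : 0 ≤ c * (m : ℝ) := by positivity
        linarith
    · have h7 : ∑ v ∈ U ∪ R, Real.log (Ideal.absNorm v.asIdeal : ℝ) ≤
          Z + n * Real.log 2 := by
        have h8 : ∑ v ∈ U ∪ R, Real.log (Ideal.absNorm v.asIdeal : ℝ) ≤
            ∑ v ∈ U, Real.log (Ideal.absNorm v.asIdeal : ℝ) + r := by
          rw [hr, ← Finset.sum_union_inter]
          have : 0 ≤ ∑ v ∈ U ∩ R, Real.log (Ideal.absNorm v.asIdeal : ℝ) :=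
            Finset.sum_nonneg fun v _ => logN_nonneg v
          linarith
        have := hQs U hU
        linarith
      have h8 : ∑ w ∈ T, Real.log (Ideal.absNorm w.asIdeal : ℝ) ≤ m * Z + 2 * m * Real.log 2 := by
        rw [hM] at hT2
        push_cast at hT2
        have h9 : κ * ∑ v ∈ U ∪ R, Real.log (Ideal.absNorm v.asIdeal : ℝ) ≤
            κ * (Z + n * Real.log 2) := mul_le_mul_of_nonneg_left h7 hκ0
        have h10 : κ * (Z + n * Real.log 2) = κ * Z + m * Real.log 2 := by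
          rw [← hkn]
          ring
        have h11 : κ * Z ≤ m * Z := mul_le_mul_of_nonneg_right hk hZ
        linarith
      have h12 : ∑ v ∈ T, Real.log (Pool.Agent.H691R3.Nv v) ≤ m * Z + 2 * m * Real.log 2 := h8
      gcongr
  have hsum : (J.card : ℝ) = ∑ U ∈ Q, ((J.filter fun j => S j \ R = U).card : ℝ) := by
    rw [Finset.card_eq_sum_card_image (fun j => S j \ R) J]
    push_cast
    rfl
  calc (J.card : ℝ) = ∑ U ∈ Q, ((J.filter fun j => S j \ R = U).card : ℝ) := hsum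
    _ ≤ ∑ _U ∈ Q, D2 * Real.exp (ε / (2 * (m + 1)) *
          (m * X + c * m + (m * Z + 2 * m * Real.log 2))) := Finset.sum_le_sum hone
    _ = (Q.card : ℝ) * (D2 * Real.exp (ε / (2 * (m + 1)) *
          (m * X + c * m + (m * Z + 2 * m * Real.log 2)))) := by
        rw [Finset.sum_const, nsmul_eq_mul]
    _ ≤ (D1 * Real.exp ((1 + ε / 2) * (Z + n * Real.log 2 - r))) * (D2 *
          Real.exp (ε / (2 * (m + 1)) * (m * X + c * m + (m * Z + 2 * m * Real.log 2)))) :=
        mul_le_mul_of_nonneg_right hQc (by positivity)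
    _ = D1 * D2 * Real.exp ((1 + ε / 2) * (Z + n * Real.log 2 - r) +
          ε / (2 * (m + 1)) * (m * X + c * m + (m * Z + 2 * m * Real.log 2))) := by
        rw [Real.exp_add]
        ring
    _ ≤ D1 * D2 * Real.exp (A + (Z - r + ε * (X + Z))) := by
        refine mul_le_mul_of_nonneg_left (Real.exp_le_exp.2 ?_) (by positivity)
        have h3 : ε / (2 * (m + 1)) * (m * X) ≤ ε / 2 * X := by
          have : ε / (2 * (m + 1)) * (m * X) = ε / 2 * X * (m / (m + 1)) := by
            field_simp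
          rw [this]
          refine mul_le_of_le_one_right (by positivity) ?_
          rw [div_le_one (by positivity)]
          linarith
        have h4 : ε / (2 * (m + 1)) * (m * Z) ≤ ε / 2 * Z := by
          have : ε / (2 * (m + 1)) * (m * Z) = ε / 2 * Z * (m / (m + 1)) := by
            field_simp
          rw [this]
          refine mul_le_of_le_one_right (by positivity) ?_
          rw [div_le_one (by positivity)]
          linarith
        have h5 : 0 ≤ ε / 2 * r := by positivity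
        have h6 : 0 ≤ ε / 2 * X := by positivity
        rw [hA]
        nlinarith
    _ = _ := by
        rw [Real.exp_add]
        ring

/-- the forced primes are few -/
theorem dat_R {L M : Type} [Field L] [NumberField L] [Field M] [NumberField M] [Algebra L M]
    {R : Finset (HeightOneSpectrum (𝓞 L))} {X Z : ℝ} {j : L} (h : Dat L M R X Z j) :
    ∑ v ∈ R, Real.log (Ideal.absNorm v.asIdeal : ℝ) ≤ Z + finrank ℚ L * Real.log 2 := by
  obtain ⟨S, hRS, hS, -⟩ := dat_S h
  exact (Finset.sum_le_sum_of_subset_of_nonneg hRS fun v _ _ => logN_nonneg v).trans hS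

end Pool.Agent.Y729.AE
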