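import Mathlib
import Pool.Agent.Y729.AE.Fiber
import Pool.Agent.Y729.DB.Unram
import Pool.Agent.Y729.DB.Norm
import Pool.Agent.Y729.SC.Rel
import Pool.Agent.Y729.ST.Struct
import Pool.Agent.W222.UABC.FieldSum

/-!
# The modular invariants of the elliptic curves over a field with few bad primes
-/

set_option autoImplicit false

namespace Pool.Agent.Y729.AE

open NumberField IsDedekindDomain Module
open Pool.Agent.H691R3 (fv fv_na)
open Pool.Agent.TH876.FH (FullTwo GoodAt badNorm)
open Pool.Agent.Y729.FW (leg six_height fv_eq_one_iff logN_nonneg)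
open Pool.Agent.W301.Lin (FS)
open Pool.Agent.W222.UABC (eS exp_sum)

/-- the primes below the primes which divide the different -/
theorem exists_R (L F : Type) [Field L] [NumberField L] [Field F] [NumberField F] [Algebra L F] :
    ∃ R : Finset (HeightOneSpectrum (𝓞 L)),
      (∀ P : HeightOneSpectrum (𝓞 F), P.asIdeal ∣ differentIdeal (𝓞 L) (𝓞 F) →
        ∃ v ∈ R, P.asIdeal.comap (algebraMap (𝓞 L) (𝓞 F)) = v.asIdeal) ∧
      ∀ v ∈ R, ∃ P : HeightOneSpectrum (𝓞 F), P.asIdeal ∣ differentIdeal (𝓞 L) (𝓞 F) ∧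
        P.asIdeal.comap (algebraMap (𝓞 L) (𝓞 F)) = v.asIdeal := by
  classical
  have hD : differentIdeal (𝓞 L) (𝓞 F) ≠ 0 := differentIdeal_ne_bot
  have hfin := Ideal.finite_factors hD
  set f : HeightOneSpectrum (𝓞 F) → HeightOneSpectrum (𝓞 L) := fun P =>
    ⟨P.asIdeal.comap (algebraMap (𝓞 L) (𝓞 F)), Ideal.IsPrime.comap _, by
      intro h
      apply P.ne_bot
      exact Ideal.eq_bot_of_comap_eq_bot h⟩ with hf
  refine ⟨hfin.toFinset.image f, ?_, ?_⟩
  · intro P hP
    refine ⟨f P, Finset.mem_image_of_mem _ ?_, rfl⟩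
    rw [Set.Finite.mem_toFinset]
    exact hP
  · intro v hv
    obtain ⟨P, hP, rfl⟩ := Finset.mem_image.1 hv
    rw [Set.Finite.mem_toFinset] at hP
    exact ⟨P, hP, rfl⟩

/-- the logarithm of the discriminant of an extension -/
noncomputable def dL {L : Type} [Field L] (F : IntermediateField L (AlgebraicClosure L)) : ℝ :=
  open Classical in
  if h : NumberField F then Real.log |(@NumberField.discr F _ h : ℝ)| else 0

theorem dL_eq {L : Type} [Field L] (F : IntermediateField L (AlgebraicClosure L))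
    [h : NumberField F] : dL F = Real.log |(NumberField.discr F : ℝ)| := by
  unfold dL
  rw [dif_pos h]

theorem dL_nonneg {L : Type} [Field L] (F : IntermediateField L (AlgebraicClosure L)) :
    0 ≤ dL F := by
  unfold dL
  split_ifs with h
  · exact Real.log_nonneg Pool.Agent.W222.UABC.one_le_disc
  · exact le_rfl

/-- the count of the fields in terms of `dL` -/
theorem count_dL {L : Type} [Field L] [NumberField L] (t : ℕ) (C e : ℝ)
    (hF : ∀ X : ℝ, 1 ≤ X → (FS L t X).Finite ∧ ((FS L t X).ncard : ℝ) ≤ C * X ^ e)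
    (G : Finset (IntermediateField L (AlgebraicClosure L)))
    (hG : ∀ F ∈ G, FiniteDimensional L F ∧ finrank L F = t) (s : ℝ) (hs : 0 ≤ s) :
    (({a ∈ G | dL a ≤ s} : Finset _).card : ℝ) ≤ C * Real.exp (e * s) := by
  obtain ⟨hf1, hf2⟩ := hF (Real.exp s) (Real.one_le_exp hs)
  have hsub : ((G.filter fun a => dL a ≤ s : Finset (IntermediateField L (AlgebraicClosure L))) :
      Set (IntermediateField L (AlgebraicClosure L))) ⊆ FS L t (Real.exp s) := by
    intro F hF
    obtain ⟨hFG, hFs⟩ := Finset.mem_filter.1 (Finset.mem_coe.1 hF)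
    obtain ⟨hfd, hft⟩ := hG F hFG
    have hnf : NumberField F := NumberField.of_module_finite L F
    refine ⟨hft, hnf, ?_⟩
    rw [dL_eq] at hFs
    have h1 : (0 : ℝ) < |((NumberField.discr F : ℤ) : ℝ)| := by
      have := Pool.Agent.W222.UABC.one_le_disc (K := F)
      linarith
    rw [Real.log_le_iff_le_exp h1] at hFs
    rw [Int.cast_abs]
    exact hFs
  have h1 : (({a ∈ G | dL a ≤ s} : Finset _).card : ℝ) ≤ ((FS L t (Real.exp s)).ncard : ℝ) := by
    rw [← Set.ncard_coe_finset]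
    exact_mod_cast Set.ncard_le_ncard hsub hf1
  refine (h1.trans hf2).trans (le_of_eq ?_)
  rw [← Real.exp_mul, mul_comm s e]

theorem eS_two : eS 2 = 1 := by
  unfold eS
  rw [Nat.prime_two.minFac_eq]
  norm_num

theorem eS_three : eS 3 = 5 / 4 := by
  unfold eS
  rw [Nat.prime_three.minFac_eq]
  norm_num

/-- one extension -/
theorem one_ext (n : ℕ) {ε : ℝ} (hε : 0 < ε) : ∃ D : ℝ, 0 < D ∧
    ∀ (L : Type) [Field L] [NumberField L], finrank ℚ L = n →
      ∀ F : IntermediateField L (AlgebraicClosure L), FiniteDimensional L F → finrank L F ≤ 3 →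
      ∀ X Z : ℝ, 0 ≤ X → 0 ≤ Z → ∀ J : Finset L, J.Nonempty →
        (∀ j ∈ J, Height.logHeight₁ j ≤ X ∧ ∃ E : WeierstrassCurve L, E.Δ ≠ 0 ∧
          E.c₄ ^ 3 / E.Δ = j ∧
          (∃ α : F, 4 * α ^ 3 + algebraMap L F E.b₂ * α ^ 2 + 2 * algebraMap L F E.b₄ * α +
            algebraMap L F E.b₆ = 0 ∧ Algebra.adjoin L {α} = ⊤) ∧
          FullTwo (E.map (algebraMap L
            (IntermediateField.normalClosure L F (AlgebraicClosure L)))) ∧
          Real.log (badNorm E) ≤ Z) →
        ∃ r : ℝ, 0 ≤ r ∧ (J.card : ℝ) ≤ D * Real.exp (Z - r + ε * (X + Z)) ∧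
          r ≤ Z + n * Real.log 2 ∧
          dL F ≤ finrank L F * Real.log |(discr L : ℝ)| + ((finrank L F : ℝ) - 1) * r +
            finrank L F * (n * Real.log ((finrank L F).factorial : ℝ)) := by
  classical
  have hf : ∀ m : ℕ, ∃ D : ℝ, 0 < D ∧
    ∀ (L M : Type) [Field L] [NumberField L] [Field M] [NumberField M] [Algebra L M],
      finrank ℚ L = n → finrank ℚ M = m →
      ∀ (R : Finset (HeightOneSpectrum (𝓞 L))) (X Z : ℝ), 0 ≤ X → 0 ≤ Z → ∀ J : Finset L,
        (∀ j ∈ J, Dat L M R X Z j) →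
        (J.card : ℝ) ≤ D * Real.exp (Z - ∑ v ∈ R, Real.log (Ideal.absNorm v.asIdeal : ℝ) +
          ε * (X + Z)) := fun m => fiber n m hε
  choose Dm hDm hm using hf
  refine ⟨∑ m ∈ Finset.range (n * 27 + 1), Dm m, ?_, ?_⟩
  · exact Finset.sum_pos (fun m _ => hDm m) ⟨0, by simp⟩
  intro L _ _ hL F hfd hF3 X Z hX hZ J hJne hJ
  have hnf : NumberField F := NumberField.of_module_finite L F
  set M := IntermediateField.normalClosure L F (AlgebraicClosure L) with hM
  have hMfd : FiniteDimensional L M := by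
    rw [hM]
    infer_instance
  have hMnf : NumberField M := NumberField.of_module_finite L M
  have hMdeg : finrank L M ≤ 27 := by
    refine (Pool.Agent.Y729.ST.finrank_normalClosure_le F).trans ?_
    have hpos : 0 < finrank L F := finrank_pos
    interval_cases finrank L F <;> norm_num
  have hMQ : finrank ℚ M ∈ Finset.range (n * 27 + 1) := by
    rw [Finset.mem_range, ← finrank_mul_finrank ℚ L M, hL]
    exact Nat.lt_succ_of_le (Nat.mul_le_mul_left _ hMdeg)
  obtain ⟨R, hR1, hR2⟩ := exists_R L F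
  have hdat : ∀ j ∈ J, Dat L M R X Z j := by
    intro j hj
    obtain ⟨hX', E, hΔ, hjE, ⟨α, hα, hadj⟩, h2, hZ'⟩ := hJ j hj
    refine ⟨hX', E, hΔ, hjE, h2, ?_, hZ'⟩
    intro v hv
    obtain ⟨P, hP, hPv⟩ := hR2 v hv
    by_contra hc
    rw [not_or, not_not, not_not] at hc
    exact Pool.Agent.Y729.DB.unram E v hc.1 hc.2 α hα hadj P hPv hP
  refine ⟨∑ v ∈ R, Real.log (Ideal.absNorm v.asIdeal : ℝ),
    Finset.sum_nonneg fun v _ => logN_nonneg v, ?_, ?_, ?_⟩
  · refine (hm (finrank ℚ M) L M hL rfl R X Z hX hZ J hdat).trans ?_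
    refine mul_le_mul_of_nonneg_right ?_ (Real.exp_pos _).le
    exact Finset.single_le_sum (fun m _ => (hDm m).le) hMQ
  · obtain ⟨j, hj⟩ := hJne
    have := dat_R (hdat j hj)
    rwa [hL] at this
  · have := Pool.Agent.Y729.DB.disc_le (k := L) (F := F) R hR1
    rw [hL] at this
    rw [dL_eq]
    exact this

end Pool.Agent.Y729.AE
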