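import Mathlib
import Pool.Agent.Y729.AE.PerField

/-!
# The modular invariants of the elliptic curves over a field with few bad primes: the count
-/

set_option autoImplicit false

namespace Pool.Agent.Y729.AE

open NumberField IsDedekindDomain Module
open Pool.Agent.TH876.FH (FullTwo GoodAt badNorm)
open Pool.Agent.W301.Lin (FS)
open Pool.Agent.W222.UABC (eS exp_sum)

/-- the curves over a field -/
def Cur (L : Type) [Field L] [NumberField L] (X Y : ℝ) (j : L) : Prop :=
  Height.logHeight₁ j ≤ X ∧ ∃ E : WeierstrassCurve L, E.Δ ≠ 0 ∧ E.c₄ ^ 3 / E.Δ = j ∧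
    Real.log (badNorm E) + 2 * Real.log |(discr L : ℝ)| ≤ Y

/-- **The count over one field** -/
theorem per_field (n : ℕ) {ε : ℝ} (hε : 0 < ε) : ∃ D : ℝ, 0 < D ∧
    ∀ (L : Type) [Field L] [NumberField L], finrank ℚ L = n →
      ∀ X Y : ℝ, 0 ≤ X → 0 ≤ Y → ∀ J : Finset L, (∀ j ∈ J, Cur L X Y j) →
        (J.card : ℝ) ≤ D * (Y + 1) *
          Real.exp (5 / 2 * Y - 5 / 4 * Real.log |(discr L : ℝ)| + ε * (X + Y)) := by
  classical
  obtain ⟨D, hD, hone⟩ := one_ext n hε
  obtain ⟨C2, hC2, h2⟩ := Pool.Agent.Y729.SC.schmidtK (n := 2) le_rfl n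
  obtain ⟨C3, hC3, h3⟩ := Pool.Agent.Y729.SC.schmidtK (n := 3) (by norm_num) n
  rw [eS_two] at h2
  rw [eS_three] at h3
  have hl2 : 0 ≤ Real.log 2 := Real.log_nonneg (by norm_num)
  have hl6 : 0 ≤ Real.log 6 := Real.log_nonneg (by norm_num)
  set c2 : ℝ := 3 * n * Real.log 2 with hc2
  set c3 : ℝ := 2 * n * Real.log 2 + 3 * n * Real.log 6 with hc3
  have hc20 : 0 ≤ c2 := by positivity
  have hc30 : 0 ≤ c3 := by positivity
  set D1 : ℝ := D with hD1
  set D2 : ℝ := D * Real.exp (2 * n * Real.log 2) * (C2 * Real.exp 1 * (c2 + 1)) with hD2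
  set D3 : ℝ := D * Real.exp (3 / 2 * n * Real.log 6) * (C3 * Real.exp (5 / 4) * (c3 + 2) *
    Real.exp (3 / 4 * c3)) with hD3
  refine ⟨D1 + D2 + D3, by positivity, ?_⟩
  intro L _ _ hL X Y hX hY J hJ
  rcases J.eq_empty_or_nonempty with rfl | ⟨j0, hj0⟩
  · simp only [Finset.card_empty, Nat.cast_zero]
    positivity
  set u : ℝ := Real.log |(discr L : ℝ)| with hu
  have hu0 : 0 ≤ u := Real.log_nonneg Pool.Agent.W222.UABC.one_le_disc
  have hZ0 : 0 ≤ Y - 2 * u := by
    obtain ⟨-, E, -, -, hE⟩ := hJ j0 hj0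
    have := Real.log_nonneg (Pool.Agent.TH876.TT.Viol_one_le E)
    linarith
  set Z : ℝ := Y - 2 * u with hZ
  -- the choice of the curves and the fields
  have hex : ∀ j : L, ∃ (E : WeierstrassCurve L) (F : IntermediateField L (AlgebraicClosure L)),
      j ∈ J → FiniteDimensional L F ∧ finrank L F ≤ 3 ∧ E.Δ ≠ 0 ∧
          E.c₄ ^ 3 / E.Δ = j ∧
          (∃ α : F, 4 * α ^ 3 + algebraMap L F E.b₂ * α ^ 2 + 2 * algebraMap L F E.b₄ * α +
            algebraMap L F E.b₆ = 0 ∧ Algebra.adjoin L {α} = ⊤) ∧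
          FullTwo (E.map (algebraMap L
            (IntermediateField.normalClosure L F (AlgebraicClosure L)))) ∧
          Real.log (badNorm E) ≤ Z := by
    intro j
    by_cases hj : j ∈ J
    · obtain ⟨-, E, hΔ, hjE, hE⟩ := hJ j hj
      obtain ⟨F, h4, h5, h6, h7⟩ := Pool.Agent.Y729.ST.struct E hΔ
      exact ⟨E, F, fun _ => ⟨h4, h5, hΔ, hjE, h6, h7, by linarith⟩⟩
    · exact ⟨⟨0, 0, 0, 0, 0⟩, ⊥, fun h => absurd h hj⟩
  choose E F hEF using hex
  set G := J.image F with hG
  have hGd : ∀ a ∈ G, FiniteDimensional L a ∧ finrank L a ≤ 3 := by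
    intro a ha
    obtain ⟨j, hj, rfl⟩ := Finset.mem_image.1 ha
    exact ⟨(hEF j hj).1, (hEF j hj).2.1⟩
  set J' : IntermediateField L (AlgebraicClosure L) → Finset L := fun a => J.filter fun j => F j = a
    with hJ'
  have hr : ∀ a ∈ G, ∃ r : ℝ, 0 ≤ r ∧ ((J' a).card : ℝ) ≤ D * Real.exp (Z - r + ε * (X + Z)) ∧
      r ≤ Z + n * Real.log 2 ∧
      dL a ≤ finrank L a * u + ((finrank L a : ℝ) - 1) * r +
        finrank L a * (n * Real.log ((finrank L a).factorial : ℝ)) := by
    intro a ha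
    obtain ⟨hfd, hle⟩ := hGd a ha
    refine hone L hL a hfd hle X Z hX hZ0 (J' a) ?_ ?_
    · obtain ⟨j, hj, rfl⟩ := Finset.mem_image.1 ha
      exact ⟨j, Finset.mem_filter.2 ⟨hj, rfl⟩⟩
    · intro j hj
      obtain ⟨hjJ, hja⟩ := Finset.mem_filter.1 hj
      obtain ⟨-, -, h6, h7, h8, h9, h10⟩ := hEF j hjJ
      rw [hja] at h8 h9
      exact ⟨(hJ j hjJ).1, E j, h6, h7, h8, h9, h10⟩
  set P : ℝ := Real.exp (5 / 2 * Y - 5 / 4 * u + ε * (X + Y)) with hP
  have hP0 : 0 < P := Real.exp_pos _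
  have hZY : ε * (X + Z) ≤ ε * (X + Y) := by
    refine mul_le_mul_of_nonneg_left ?_ hε.le
    linarith
  -- degree one
  have hG1 : ∑ a ∈ G.filter (fun a : IntermediateField L (AlgebraicClosure L) => finrank L a = 1), ((J' a).card : ℝ) ≤ D1 * P := by
    have hsub : G.filter (fun a : IntermediateField L (AlgebraicClosure L) => finrank L a = 1) ⊆ {⊥} := by
      intro a ha
      rw [Finset.mem_singleton]
      exact IntermediateField.finrank_eq_one_iff.1 (Finset.mem_filter.1 ha).2
    have hle : ∀ a ∈ G.filter (fun a : IntermediateField L (AlgebraicClosure L) => finrank L a = 1), ((J' a).card : ℝ) ≤ D1 * P := by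
      intro a ha
      obtain ⟨r, hr0, h4, -, -⟩ := hr a (Finset.mem_filter.1 ha).1
      refine h4.trans (mul_le_mul_of_nonneg_left (Real.exp_le_exp.2 ?_) hD.le)
      linarith
    calc ∑ a ∈ G.filter (fun a : IntermediateField L (AlgebraicClosure L) => finrank L a = 1), ((J' a).card : ℝ)
        ≤ (G.filter (fun a : IntermediateField L (AlgebraicClosure L) => finrank L a = 1)).card * (D1 * P) := by
          rw [← nsmul_eq_mul, ← Finset.sum_const]
          exact Finset.sum_le_sum hle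
      _ ≤ 1 * (D1 * P) := by
          refine mul_le_mul_of_nonneg_right ?_ (by positivity)
          have := Finset.card_le_card hsub
          rw [Finset.card_singleton] at this
          exact_mod_cast this
      _ = D1 * P := one_mul _
  -- degree two
  have hG2 : ∑ a ∈ G.filter (fun a : IntermediateField L (AlgebraicClosure L) => finrank L a = 2), ((J' a).card : ℝ) ≤ D2 * (Y + 1) * P := by
    set G2 := G.filter (fun a : IntermediateField L (AlgebraicClosure L) => finrank L a = 2) with hG2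
    have hle : ∀ a ∈ G2, ((J' a).card : ℝ) ≤
        D * Real.exp (2 * n * Real.log 2) * Real.exp (Y + ε * (X + Y)) *
          Real.exp (-(1 * dL a)) := by
      intro a ha
      obtain ⟨haG, ha2⟩ := Finset.mem_filter.1 ha
      obtain ⟨r, hr0, h4, h5, h6⟩ := hr a haG
      rw [ha2] at h6
      have e1 : ((2 : ℕ).factorial : ℝ) = 2 := by norm_num [Nat.factorial]
      rw [e1] at h6
      push_cast at h6
      refine h4.trans ?_
      rw [mul_assoc, mul_assoc, ← Real.exp_add, ← Real.exp_add]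
      refine mul_le_mul_of_nonneg_left (Real.exp_le_exp.2 ?_) hD.le
      linarith
    have hb : ∀ a ∈ G2, dL a ≤ Y + c2 := by
      intro a ha
      obtain ⟨haG, ha2⟩ := Finset.mem_filter.1 ha
      obtain ⟨r, hr0, h4, h5, h6⟩ := hr a haG
      rw [ha2] at h6
      have e1 : ((2 : ℕ).factorial : ℝ) = 2 := by norm_num [Nat.factorial]
      rw [e1] at h6
      push_cast at h6
      rw [hc2]
      linarith
    have hs := exp_sum G2 dL C2 1 1 (Y + c2) hC2.le zero_le_one zero_le_one (by linarith)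
      (fun a _ => dL_nonneg a) hb (fun s hs0 => count_dL 2 C2 1 (h2 L hL) G2 (fun a ha =>
        ⟨(hGd a (Finset.mem_filter.1 ha).1).1, (Finset.mem_filter.1 ha).2⟩) s hs0)
    rw [sub_self, max_self, zero_mul, Real.exp_zero, mul_one] at hs
    calc ∑ a ∈ G2, ((J' a).card : ℝ) ≤ ∑ a ∈ G2, D * Real.exp (2 * n * Real.log 2) *
          Real.exp (Y + ε * (X + Y)) * Real.exp (-(1 * dL a)) := Finset.sum_le_sum hle
      _ = D * Real.exp (2 * n * Real.log 2) * Real.exp (Y + ε * (X + Y)) *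
          ∑ a ∈ G2, Real.exp (-(1 * dL a)) := by rw [Finset.mul_sum]
      _ ≤ D * Real.exp (2 * n * Real.log 2) * Real.exp (Y + ε * (X + Y)) *
          (C2 * Real.exp 1 * (Y + c2 + 1)) := mul_le_mul_of_nonneg_left hs (by positivity)
      _ ≤ D * Real.exp (2 * n * Real.log 2) * P * (C2 * Real.exp 1 * ((c2 + 1) * (Y + 1))) := by
          have e1 : Real.exp (Y + ε * (X + Y)) ≤ P := by
            rw [hP]
            refine Real.exp_le_exp.2 ?_
            linarith
          have e2 : Y + c2 + 1 ≤ (c2 + 1) * (Y + 1) := by nlinarith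
          gcongr
      _ = D2 * (Y + 1) * P := by
          rw [hD2]
          ring
  -- degree three
  have hG3 : ∑ a ∈ G.filter (fun a : IntermediateField L (AlgebraicClosure L) => finrank L a = 3), ((J' a).card : ℝ) ≤ D3 * (Y + 1) * P := by
    set G3 := G.filter (fun a : IntermediateField L (AlgebraicClosure L) => finrank L a = 3) with hG3
    have e6 : ((3 : ℕ).factorial : ℝ) = 6 := by norm_num [Nat.factorial]
    have hle : ∀ a ∈ G3, ((J' a).card : ℝ) ≤
        D * Real.exp (3 / 2 * n * Real.log 6) * Real.exp (Y - 1 / 2 * u + ε * (X + Y)) *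
          Real.exp (-(1 / 2 * dL a)) := by
      intro a ha
      obtain ⟨haG, ha2⟩ := Finset.mem_filter.1 ha
      obtain ⟨r, hr0, h4, h5, h6⟩ := hr a haG
      rw [ha2, e6] at h6
      push_cast at h6
      refine h4.trans ?_
      rw [mul_assoc, mul_assoc, ← Real.exp_add, ← Real.exp_add]
      refine mul_le_mul_of_nonneg_left (Real.exp_le_exp.2 ?_) hD.le
      linarith
    have hb : ∀ a ∈ G3, dL a ≤ 2 * Y - u + c3 := by
      intro a ha
      obtain ⟨haG, ha2⟩ := Finset.mem_filter.1 ha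
      obtain ⟨r, hr0, h4, h5, h6⟩ := hr a haG
      rw [ha2, e6] at h6
      push_cast at h6
      rw [hc3]
      linarith
    have hs := exp_sum G3 dL C3 (5 / 4) (1 / 2) (2 * Y - u + c3) hC3.le (by norm_num)
      (by norm_num) (by linarith)
      (fun a _ => dL_nonneg a) hb (fun s hs0 => count_dL 3 C3 (5 / 4) (h3 L hL) G3 (fun a ha =>
        ⟨(hGd a (Finset.mem_filter.1 ha).1).1, (Finset.mem_filter.1 ha).2⟩) s hs0)
    rw [max_eq_left (by norm_num : (0 : ℝ) ≤ 5 / 4 - 1 / 2)] at hs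
    calc ∑ a ∈ G3, ((J' a).card : ℝ) ≤ ∑ a ∈ G3, D * Real.exp (3 / 2 * n * Real.log 6) *
          Real.exp (Y - 1 / 2 * u + ε * (X + Y)) * Real.exp (-(1 / 2 * dL a)) :=
            Finset.sum_le_sum hle
      _ = D * Real.exp (3 / 2 * n * Real.log 6) * Real.exp (Y - 1 / 2 * u + ε * (X + Y)) *
          ∑ a ∈ G3, Real.exp (-(1 / 2 * dL a)) := by rw [Finset.mul_sum]
      _ ≤ D * Real.exp (3 / 2 * n * Real.log 6) * Real.exp (Y - 1 / 2 * u + ε * (X + Y)) *
          (C3 * Real.exp (5 / 4) * (2 * Y - u + c3 + 1) *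
            Real.exp ((5 / 4 - 1 / 2) * (2 * Y - u + c3))) :=
          mul_le_mul_of_nonneg_left hs (by positivity)
      _ = D * Real.exp (3 / 2 * n * Real.log 6) * (C3 * Real.exp (5 / 4) *
          (2 * Y - u + c3 + 1)) * (Real.exp (Y - 1 / 2 * u + ε * (X + Y)) *
            Real.exp ((5 / 4 - 1 / 2) * (2 * Y - u + c3))) := by ring
      _ = D * Real.exp (3 / 2 * n * Real.log 6) * (C3 * Real.exp (5 / 4) *
          (2 * Y - u + c3 + 1)) * (Real.exp (3 / 4 * c3) * P) := by
          congr 1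
          rw [hP, ← Real.exp_add, ← Real.exp_add]
          congr 1
          ring
      _ ≤ D * Real.exp (3 / 2 * n * Real.log 6) * (C3 * Real.exp (5 / 4) *
          ((c3 + 2) * (Y + 1))) * (Real.exp (3 / 4 * c3) * P) := by
          have e2 : 2 * Y - u + c3 + 1 ≤ (c3 + 2) * (Y + 1) := by nlinarith
          gcongr
      _ = D3 * (Y + 1) * P := by
          rw [hD3]
          ring
  have hsum : (J.card : ℝ) = ∑ a ∈ G, ((J' a).card : ℝ) := by
    rw [Finset.card_eq_sum_card_image F J]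
    push_cast
    rfl
  have hsplit : ∑ a ∈ G, ((J' a).card : ℝ) ≤
      ∑ a ∈ G.filter (fun a : IntermediateField L (AlgebraicClosure L) => finrank L a = 1), ((J' a).card : ℝ) +
      ∑ a ∈ G.filter (fun a : IntermediateField L (AlgebraicClosure L) => finrank L a = 2), ((J' a).card : ℝ) +
      ∑ a ∈ G.filter (fun a : IntermediateField L (AlgebraicClosure L) => finrank L a = 3), ((J' a).card : ℝ) := by
    rw [Finset.sum_filter, Finset.sum_filter, Finset.sum_filter, ← Finset.sum_add_distrib,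
      ← Finset.sum_add_distrib]
    refine Finset.sum_le_sum fun a ha => ?_
    obtain ⟨hfd, hle⟩ := hGd a ha
    have hpos : 0 < finrank L a := finrank_pos
    have h0 : (0 : ℝ) ≤ ((J' a).card : ℝ) := Nat.cast_nonneg _
    have hcases : finrank L a = 1 ∨ finrank L a = 2 ∨ finrank L a = 3 := by omega
    rcases hcases with h | h | h <;> rw [h] <;> norm_num
  have hDP : D1 * P ≤ D1 * (Y + 1) * P := by
    have : D1 * 1 ≤ D1 * (Y + 1) := mul_le_mul_of_nonneg_left (by linarith) hD.le
    nlinarith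
  calc (J.card : ℝ) = ∑ a ∈ G, ((J' a).card : ℝ) := hsum
    _ ≤ D1 * P + D2 * (Y + 1) * P + D3 * (Y + 1) * P := by linarith
    _ ≤ D1 * (Y + 1) * P + D2 * (Y + 1) * P + D3 * (Y + 1) * P := by linarith
    _ = (D1 + D2 + D3) * (Y + 1) * P := by ring

end Pool.Agent.Y729.AE
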