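import Mathlib
import Pool.Agent.Y729.AE.Field
import Pool.Agent.W301.LinI3

/-!
# The pairs (field, modular invariant) with few bad primes
-/

set_option autoImplicit false

namespace Pool.Agent.Y729.AE

open NumberField IsDedekindDomain Module
open Pool.Agent.TH876.FH (FullTwo GoodAt badNorm)
open Pool.Agent.W301.Lin (FS)
open Pool.Agent.W222.UABC (eS exp_sum)

/-- the data of one pair -/
def P3 (K : Type) [Field K] [NumberField K] (g : ℕ) (X Y : ℝ)
    (p : IntermediateField K (AlgebraicClosure K) × AlgebraicClosure K) : Prop :=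
  ∃ (_ : NumberField p.1) (j : p.1), (j : AlgebraicClosure K) = p.2 ∧ finrank K p.1 = g ∧
    Cur p.1 X Y j

/-- the exponent -/
noncomputable def mx (e : ℝ) : ℝ := max (5 / 2) (15 / 8 + e / 2)

theorem mx_pos (e : ℝ) : 0 < mx e := lt_of_lt_of_le (by norm_num) (le_max_left _ _)

theorem core3 (d g : ℕ) (e : ℝ) (he : 0 ≤ e) (C : ℝ) (hC : 0 < C) {ε : ℝ} (hε0 : 0 < ε) :
    ∃ D : ℝ, 0 < D ∧ ∀ (K : Type) [Field K] [NumberField K], finrank ℚ K = d →
      (∀ X : ℝ, 1 ≤ X → (FS K g X).Finite ∧ ((FS K g X).ncard : ℝ) ≤ C * X ^ e) →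
      ∀ X Y : ℝ, 0 ≤ X → 0 ≤ Y →
      ∀ E : Finset (IntermediateField K (AlgebraicClosure K) × AlgebraicClosure K),
        (∀ p ∈ E, P3 K g X Y p) →
        (E.card : ℝ) ≤ D * (Y + 1) ^ 2 * Real.exp (mx e * Y + ε * (X + Y)) := by
  classical
  obtain ⟨D, hD, hfield⟩ := per_field (d * g) hε0
  refine ⟨D * (C * Real.exp e), by positivity, ?_⟩
  intro K _ _ hK hF X Y hX0 hY0 E hdata
  set F : Finset (IntermediateField K (AlgebraicClosure K)) := E.image Prod.fst with hFd
  have hcard : (E.card : ℝ) = ∑ L ∈ F, ((E.filter fun p => p.1 = L).card : ℝ) := by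
    rw [Finset.card_eq_sum_card_image Prod.fst E]
    push_cast
    rfl
  have hone : ∀ L ∈ F, ((E.filter fun p => p.1 = L).card : ℝ) ≤
      D * (Y + 1) * Real.exp (5 / 2 * Y + ε * (X + Y)) * Real.exp (-(5 / 4 * dL L)) := by
    intro L hL
    obtain ⟨p0, hp0, rfl⟩ := Finset.mem_image.1 hL
    obtain ⟨hnf, -, -, hfin, -⟩ := hdata p0 hp0
    set f : AlgebraicClosure K → p0.1 := fun y => if h : y ∈ p0.1 then ⟨y, h⟩ else 0 with hf
    set G := E.filter fun p => p.1 = p0.1 with hG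
    have hGm : ∀ p ∈ G, p ∈ E ∧ p.1 = p0.1 := fun p hp => Finset.mem_filter.1 hp
    have hgx : ∀ p ∈ G, ∃ x : p0.1, (x : AlgebraicClosure K) = p.2 ∧ f p.2 = x ∧
        Cur p0.1 X Y x := by
      rintro ⟨p1, p2⟩ hp
      obtain ⟨hpE, hp1⟩ := hGm _ hp
      simp only at hp1
      subst hp1
      obtain ⟨_, x, hx, _, hx0⟩ := hdata _ hpE
      refine ⟨x, hx, ?_, hx0⟩
      rw [hf]
      simp only at hx
      simp only
      rw [← hx, dif_pos x.2]
    have hinj : Set.InjOn (fun p : IntermediateField K (AlgebraicClosure K) ×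
        AlgebraicClosure K => f p.2) (G : Set _) := by
      intro p hp q hq hpq
      obtain ⟨x, hx, hgx', -⟩ := hgx p (Finset.mem_coe.1 hp)
      obtain ⟨y, hy, hgy', -⟩ := hgx q (Finset.mem_coe.1 hq)
      simp only at hpq
      rw [hgx', hgy'] at hpq
      refine Prod.ext ((hGm p (Finset.mem_coe.1 hp)).2.trans
        (hGm q (Finset.mem_coe.1 hq)).2.symm) ?_
      rw [← hx, ← hy, hpq]
    rw [← Finset.card_image_of_injOn hinj]
    have hdeg : finrank ℚ p0.1 = d * g := by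
      rw [← finrank_mul_finrank ℚ K p0.1, hK, hfin]
    refine (hfield p0.1 hdeg X Y hX0 hY0 _ ?_).trans (le_of_eq ?_)
    · intro y hy
      obtain ⟨p, hp, rfl⟩ := Finset.mem_image.1 hy
      obtain ⟨x, -, hgx', hc⟩ := hgx p hp
      rw [hgx']
      exact hc
    · rw [dL_eq, mul_assoc (D * (Y + 1)), ← Real.exp_add]
      congr 2
      ring
  have hd1 : ∀ L ∈ F, dL L ≤ Y / 2 := by
    intro L hL
    obtain ⟨p0, hp0, rfl⟩ := Finset.mem_image.1 hL
    obtain ⟨_, x, _, _, _, E', _, _, h⟩ := hdata p0 hp0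
    have h2 := Real.log_nonneg (Pool.Agent.TH876.TT.Viol_one_le E')
    rw [dL_eq]
    linarith
  have hFg : ∀ L ∈ F, FiniteDimensional K L ∧ finrank K L = g := by
    intro L hL
    obtain ⟨p0, hp0, rfl⟩ := Finset.mem_image.1 hL
    obtain ⟨hnf, -, -, hfin, -⟩ := hdata p0 hp0
    exact ⟨Module.Finite.of_restrictScalars_finite ℚ K p0.1, hfin⟩
  have hsum := exp_sum F dL C e (5 / 4) (Y / 2) hC.le he (by norm_num) (by linarith)
    (fun L _ => dL_nonneg L) hd1 (fun s hs => count_dL g C e hF F hFg s hs)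
  have hexp : 5 / 2 * Y + ε * (X + Y) + max (e - 5 / 4) 0 * (Y / 2) =
      mx e * Y + ε * (X + Y) := by
    unfold mx
    rcases le_total (e - 5 / 4) 0 with h | h
    · rw [max_eq_right h, max_eq_left (by linarith)]
      ring
    · rw [max_eq_left h, max_eq_right (by linarith)]
      ring
  have hY2 : Y / 2 + 1 ≤ Y + 1 := by linarith
  calc (E.card : ℝ) = ∑ L ∈ F, ((E.filter fun p => p.1 = L).card : ℝ) := hcard
    _ ≤ ∑ L ∈ F, D * (Y + 1) * Real.exp (5 / 2 * Y + ε * (X + Y)) * Real.exp (-(5 / 4 * dL L)) :=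
        Finset.sum_le_sum hone
    _ = D * (Y + 1) * Real.exp (5 / 2 * Y + ε * (X + Y)) * ∑ L ∈ F, Real.exp (-(5 / 4 * dL L)) := by
        rw [Finset.mul_sum]
    _ ≤ D * (Y + 1) * Real.exp (5 / 2 * Y + ε * (X + Y)) *
          (C * Real.exp e * (Y / 2 + 1) * Real.exp (max (e - 5 / 4) 0 * (Y / 2))) :=
        mul_le_mul_of_nonneg_left hsum (by positivity)
    _ ≤ D * (Y + 1) * Real.exp (5 / 2 * Y + ε * (X + Y)) *
          (C * Real.exp e * (Y + 1) * Real.exp (max (e - 5 / 4) 0 * (Y / 2))) := by gcongr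
    _ = D * (C * Real.exp e) * (Y + 1) ^ 2 *
          (Real.exp (5 / 2 * Y + ε * (X + Y)) * Real.exp (max (e - 5 / 4) 0 * (Y / 2))) := by ring
    _ = _ := by rw [← Real.exp_add, hexp]

/-- the count in terms of one large parameter -/
theorem count3 (d g : ℕ) (e : ℝ) (he : 0 ≤ e) (C : ℝ) (hC : 0 < C)
    (a b c δ : ℝ) (ha : 0 ≤ a) (hb : 0 ≤ b) (hc : 0 ≤ c) (hδ : 0 < δ) :
    ∃ M : ℝ, 0 ≤ M ∧ ∀ (K : Type) [Field K] [NumberField K], finrank ℚ K = d →
      (∀ X : ℝ, 1 ≤ X → (FS K g X).Finite ∧ ((FS K g X).ncard : ℝ) ≤ C * X ^ e) →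
      ∀ B : ℝ, 1 ≤ B →
      ∀ E : Finset (IntermediateField K (AlgebraicClosure K) × AlgebraicClosure K),
        (∀ p ∈ E, P3 K g (b * Real.log B + c) (a * Real.log B + c) p) →
        (E.card : ℝ) ≤ M * B ^ (mx e * a + δ) := by
  set m : ℝ := mx e with hm
  have hm0 : 0 < m := mx_pos e
  set ε : ℝ := δ / (2 * (a + b + 1)) with hε
  have hε0 : 0 < ε := by positivity
  obtain ⟨D, hD, hcore⟩ := core3 d g e he C hC hε0
  set C2 : ℝ := a * (4 / δ) + (c + 1) with hC2
  have hC20 : 0 < C2 := by positivity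
  refine ⟨D * C2 ^ 2 * Real.exp (m * c + ε * (c + c)), by positivity, ?_⟩
  intro K _ _ hK hF B hB E hE
  have hB0 : 0 < B := by linarith
  have hlB : 0 ≤ Real.log B := Real.log_nonneg hB
  set T : ℝ := Real.log B with hT
  have h1 := hcore K hK hF (b * T + c) (a * T + c) (by positivity) (by positivity) E hE
  have h3 : a * T + c + 1 ≤ C2 * Real.exp (δ / 4 * T) := by
    have e1 : δ / 4 * T ≤ Real.exp (δ / 4 * T) := by
      have := Real.add_one_le_exp (δ / 4 * T)
      linarith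
    have e2 : 1 ≤ Real.exp (δ / 4 * T) := Real.one_le_exp (by positivity)
    have e3 : T = 4 / δ * (δ / 4 * T) := by field_simp
    have e4 : T ≤ 4 / δ * Real.exp (δ / 4 * T) := by
      calc T = 4 / δ * (δ / 4 * T) := e3
        _ ≤ _ := mul_le_mul_of_nonneg_left e1 (by positivity)
    have e5 : a * T ≤ a * (4 / δ * Real.exp (δ / 4 * T)) := mul_le_mul_of_nonneg_left e4 ha
    have e6 : c + 1 ≤ (c + 1) * Real.exp (δ / 4 * T) :=
      le_mul_of_one_le_right (by linarith) e2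
    rw [hC2]
    linarith
  have h4 : (a * T + c + 1) ^ 2 ≤ C2 ^ 2 * Real.exp (δ / 2 * T) := by
    have : C2 ^ 2 * Real.exp (δ / 2 * T) = (C2 * Real.exp (δ / 4 * T)) ^ 2 := by
      rw [mul_pow, sq (Real.exp (δ / 4 * T)), ← Real.exp_add]
      congr 2
      ring
    rw [this]
    exact pow_le_pow_left₀ (by positivity) h3 2
  calc (E.card : ℝ) ≤ D * (a * T + c + 1) ^ 2 *
        Real.exp (m * (a * T + c) + ε * (b * T + c + (a * T + c))) := h1
    _ ≤ D * (C2 ^ 2 * Real.exp (δ / 2 * T)) *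
        Real.exp (m * (a * T + c) + ε * (b * T + c + (a * T + c))) := by gcongr
    _ = D * C2 ^ 2 * Real.exp (m * c + ε * (c + c)) *
          Real.exp (δ / 2 * T + (m * a + ε * (a + b)) * T) := by
        rw [show D * (C2 ^ 2 * Real.exp (δ / 2 * T)) *
          Real.exp (m * (a * T + c) + ε * (b * T + c + (a * T + c))) =
          D * C2 ^ 2 * (Real.exp (δ / 2 * T) *
          Real.exp (m * (a * T + c) + ε * (b * T + c + (a * T + c)))) by ring, ← Real.exp_add,
          mul_assoc (D * C2 ^ 2), ← Real.exp_add]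
        congr 2
        ring
    _ ≤ D * C2 ^ 2 * Real.exp (m * c + ε * (c + c)) * Real.exp (T * (m * a + δ)) := by
        refine mul_le_mul_of_nonneg_left (Real.exp_le_exp.2 ?_) (by positivity)
        have e2 : ε * (a + b) ≤ δ / 2 := by
          rw [hε, div_mul_eq_mul_div, div_le_div_iff₀ (by positivity) (by norm_num)]
          nlinarith
        nlinarith
    _ = _ := by rw [Real.rpow_def_of_pos hB0]

/-- the fields, uniformly in the base field -/
theorem linnikK : ∃ e : ℕ → ℝ,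
    (∀ c : ℝ, 1 / (8 * (Real.log 2) ^ 2) < c →
      ∀ᶠ n : ℕ in Filter.atTop, e n ≤ c * (Real.log n) ^ 2) ∧ (∀ n, 0 ≤ e n) ∧
    (∀ n : ℕ, 2 ≤ n → e n ≤ eS n) ∧ e 1 = 0 ∧
    ∀ n : ℕ, 1 ≤ n → ∀ k0 : ℕ, ∃ C : ℝ, 0 < C ∧
      ∀ (K : Type) [Field K] [NumberField K], finrank ℚ K = k0 → ∀ X : ℝ, 1 ≤ X →
        (FS K n X).Finite ∧ ((FS K n X).ncard : ℝ) ≤ C * X ^ e n := by
  classical
  set G : ℕ → Set ℝ := fun n => {x | ∃ r d u m t : ℕ, 0 < r ∧ t ≤ n ∧
      (r + 1) * n ≤ (r + d).choose r ∧ n * (n - t) ^ m < n ^ m ∧ m ≤ 2 ^ u ∧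
      x = Pool.Agent.W301.Lin.Ex n r d u t} with hG
  have hne : ∀ n : ℕ, 2 ≤ n → (G n).Nonempty := by
    intro n hn
    refine ⟨_, 1, 2 * n - 1, 0, 1, n, one_pos, le_rfl, ?_, ?_, ?_, rfl⟩
    · rw [Nat.choose_one_right]
      omega
    · simp
      omega
    · simp
  have hbd : ∀ n, BddBelow (G n) := by
    intro n
    refine ⟨0, ?_⟩
    rintro x ⟨r, d, u, m, t, -, -, -, -, -, rfl⟩
    unfold Pool.Agent.W301.Lin.Ex
    positivity
  have hnn : ∀ n, 0 ≤ sInf (G n) := by
    intro n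
    refine Real.sInf_nonneg ?_
    rintro x ⟨r, d, u, m, t, -, -, -, -, -, rfl⟩
    unfold Pool.Agent.W301.Lin.Ex
    positivity
  have hS0 : ∀ n, 0 ≤ eS n := by
    intro n
    unfold eS
    positivity
  set e : ℕ → ℝ := fun n => if n = 1 then 0 else min (sInf (G n) + 1) (eS n) with he
  have he1 : e 1 = 0 := by
    rw [he]
    simp
  have he2 : ∀ n, 2 ≤ n → e n = min (sInf (G n) + 1) (eS n) := by
    intro n hn
    rw [he]
    simp only
    rw [if_neg (by omega)]
  refine ⟨e, ?_, ?_, ?_, he1, ?_⟩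
  · intro c hc
    obtain ⟨c', hc1, hc2⟩ := exists_between hc
    have hlog : Filter.Tendsto (fun n : ℕ => Real.log n) Filter.atTop Filter.atTop :=
      Real.tendsto_log_atTop.comp tendsto_natCast_atTop_atTop
    have h1 : Filter.Tendsto (fun n : ℕ => (c - c') * (Real.log n) ^ 2) Filter.atTop
        Filter.atTop :=
      Filter.Tendsto.const_mul_atTop (sub_pos.2 hc2)
        ((Filter.tendsto_pow_atTop two_ne_zero).comp hlog)
    filter_upwards [Pool.Agent.W301.Lin.eventually_good c' hc1, h1.eventually_ge_atTop 1,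
      Filter.eventually_ge_atTop 2] with n hn1 hn2 hn3
    obtain ⟨r, d, u, m, t, h2, h3, h4, h5, h6, h7⟩ := hn1
    have h8 : sInf (G n) ≤ Pool.Agent.W301.Lin.Ex n r d u t :=
      csInf_le (hbd n) ⟨r, d, u, m, t, h2, h3, h4, h5, h6, rfl⟩
    rw [he2 n hn3]
    refine (min_le_left _ _).trans ?_
    linarith
  · intro n
    rw [he]
    simp only
    split_ifs with h
    · exact le_rfl
    · exact le_min (by linarith [hnn n]) (hS0 n)
  · intro n hn
    rw [he2 n hn]
    exact min_le_right _ _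
  · intro n hn k0
    rcases Nat.lt_or_ge n 2 with h2 | h2
    · have hn1 : n = 1 := by omega
      subst hn1
      refine ⟨1, one_pos, ?_⟩
      intro K _ _ _ X hX
      have hsub : FS K 1 X ⊆ {⊥} := by
        rintro F ⟨hF, -⟩
        rw [Set.mem_singleton_iff]
        exact IntermediateField.finrank_eq_one_iff.1 hF
      refine ⟨(Set.finite_singleton _).subset hsub, ?_⟩
      rw [he1, Real.rpow_zero, mul_one]
      have := Set.ncard_le_ncard hsub (Set.finite_singleton _)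
      rw [Set.ncard_singleton] at this
      exact_mod_cast this
    · rw [he2 n h2]
      rcases le_total (sInf (G n) + 1) (eS n) with h | h
      · rw [min_eq_left h]
        obtain ⟨x, hx, hxlt⟩ := exists_lt_of_csInf_lt (hne n h2) (lt_add_one (sInf (G n)))
        obtain ⟨r, d, u, m, t, h3, h4, h5, h6, h7, rfl⟩ := hx
        obtain ⟨C, hC⟩ := Pool.Agent.W301.Lin.card_FS_le_rpow n r d u m t k0 (by omega) h3 h4 h5
          h6 h7
        refine ⟨|C| + 1, by positivity, ?_⟩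
        intro K _ _ hK X hX
        obtain ⟨h8, h9⟩ := hC K hK X hX
        refine ⟨h8, h9.trans ?_⟩
        calc C * X ^ Pool.Agent.W301.Lin.Ex n r d u t ≤
              (|C| + 1) * X ^ Pool.Agent.W301.Lin.Ex n r d u t := by
              gcongr
              exact (le_abs_self C).trans (by linarith)
          _ ≤ (|C| + 1) * X ^ (sInf (G n) + 1) := by
              gcongr
      · rw [min_eq_right h]
        exact Pool.Agent.Y729.SC.schmidtK h2 k0

end Pool.Agent.Y729.AE
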