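import Mathlib
import Pool.Agent.Y729.AE.Ext

/-!
# The exponents of the minimal discriminant
-/

set_option autoImplicit false

namespace Pool.Agent.Y729.AE

open NumberField IsDedekindDomain Module WithZero
open Pool.Agent.H691R3 (fv fv_na)
open Pool.Agent.TH876.FH (FullTwo GoodAt badNorm)
open Pool.Agent.Y729.FW (lp lp_support logN_nonneg fv_eq_one_iff)

section

variable {K : Type} [Field K] [NumberField K]

/-- the equation is integral at `v` -/
def IntAt (v : HeightOneSpectrum (𝓞 K)) (E : WeierstrassCurve K) : Prop :=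
  v.valuation K E.a₁ ≤ 1 ∧ v.valuation K E.a₂ ≤ 1 ∧ v.valuation K E.a₃ ≤ 1 ∧
    v.valuation K E.a₄ ≤ 1 ∧ v.valuation K E.a₆ ≤ 1

/-- the exponent of `v` in the minimal discriminant -/
noncomputable def discExp (v : HeightOneSpectrum (𝓞 K)) (E : WeierstrassCurve K) : ℕ :=
  sInf {m : ℕ | ∃ C : WeierstrassCurve.VariableChange K, IntAt v (C • E) ∧
    v.valuation K (C • E).Δ = exp (-(m : ℤ))}

theorem int_model (v : HeightOneSpectrum (𝓞 K)) (E : WeierstrassCurve K) (h : IntAt v E) :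
    ∃ W : WeierstrassCurve (v.valuation K).integer,
      W.map (v.valuation K).integer.subtype = E := by
  obtain ⟨h1, h2, h3, h4, h6⟩ := h
  exact ⟨⟨⟨E.a₁, h1⟩, ⟨E.a₂, h2⟩, ⟨E.a₃, h3⟩, ⟨E.a₄, h4⟩, ⟨E.a₆, h6⟩⟩, rfl⟩

theorem int_disc (v : HeightOneSpectrum (𝓞 K)) (E : WeierstrassCurve K) (h : IntAt v E) :
    v.valuation K E.Δ ≤ 1 ∧ v.valuation K E.c₄ ≤ 1 := by
  obtain ⟨W, hW⟩ := int_model v E h
  rw [← hW, WeierstrassCurve.map_Δ, WeierstrassCurve.map_c₄]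
  exact ⟨W.Δ.2, W.c₄.2⟩

theorem val_exp (v : HeightOneSpectrum (𝓞 K)) {x : K} (h0 : x ≠ 0) (h1 : v.valuation K x ≤ 1) :
    ∃ m : ℕ, v.valuation K x = exp (-(m : ℤ)) := by
  have hx : v.valuation K x ≠ 0 := (v.valuation K).ne_zero_iff.2 h0
  obtain ⟨a, ha⟩ : ∃ a : ℤ, v.valuation K x = exp a := ⟨_, (exp_log hx).symm⟩
  have ha0 : a ≤ 0 := by
    rw [ha, ← exp_zero] at h1
    exact exp_le_exp.1 h1
  refine ⟨a.natAbs, ?_⟩
  rw [ha]
  congr 1
  omega

/-- an integral model -/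
theorem exists_model (v : HeightOneSpectrum (𝓞 K)) (E : WeierstrassCurve K) (hE : E.Δ ≠ 0) :
    ∃ (m : ℕ) (C : WeierstrassCurve.VariableChange K), IntAt v (C • E) ∧
      v.valuation K (C • E).Δ = exp (-(m : ℤ)) := by
  obtain ⟨π, hπ⟩ := v.valuation_exists_uniformizer K
  have hπ0 : π ≠ 0 := by
    rintro rfl
    rw [map_zero] at hπ
    exact exp_ne_zero hπ.symm
  have hex : ∀ x : K, ∃ k : ℕ, ∀ l : ℕ, k ≤ l → v.valuation K (π ^ l * x) ≤ 1 := by
    intro x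
    rcases eq_or_ne x 0 with rfl | hx
    · exact ⟨0, fun l _ => by rw [mul_zero, map_zero]; exact zero_le_one⟩
    · have hx' : v.valuation K x ≠ 0 := (v.valuation K).ne_zero_iff.2 hx
      obtain ⟨a, ha⟩ : ∃ a : ℤ, v.valuation K x = exp a := ⟨_, (exp_log hx').symm⟩
      refine ⟨a.natAbs, fun l hl => ?_⟩
      rw [map_mul, map_pow, hπ, ha, ← exp_nsmul, ← exp_add, ← exp_zero, exp_le_exp]
      rw [nsmul_eq_mul]
      omega
  obtain ⟨k1, h1⟩ := hex E.a₁
  obtain ⟨k2, h2⟩ := hex E.a₂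
  obtain ⟨k3, h3⟩ := hex E.a₃
  obtain ⟨k4, h4⟩ := hex E.a₄
  obtain ⟨k6, h6⟩ := hex E.a₆
  set k := k1 + k2 + k3 + k4 + k6 with hk
  set u : Kˣ := Units.mk0 (π ^ k) (pow_ne_zero _ hπ0) with hu
  set C : WeierstrassCurve.VariableChange K := ⟨u⁻¹, 0, 0, 0⟩ with hC
  have hCu : ((C.u⁻¹ : Kˣ) : K) = π ^ k := by
    rw [hC]
    simp only [inv_inv]
    rfl
  have e1 : (C • E).a₁ = π ^ k * E.a₁ := by
    rw [WeierstrassCurve.variableChange_a₁, hCu, hC]
    ring
  have e2 : (C • E).a₂ = π ^ (k * 2) * E.a₂ := by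
    rw [WeierstrassCurve.variableChange_a₂, hCu, hC]
    ring
  have e3 : (C • E).a₃ = π ^ (k * 3) * E.a₃ := by
    rw [WeierstrassCurve.variableChange_a₃, hCu, hC]
    ring
  have e4 : (C • E).a₄ = π ^ (k * 4) * E.a₄ := by
    rw [WeierstrassCurve.variableChange_a₄, hCu, hC]
    ring
  have e6 : (C • E).a₆ = π ^ (k * 6) * E.a₆ := by
    rw [WeierstrassCurve.variableChange_a₆, hCu, hC]
    ring
  have hint : IntAt v (C • E) := by
    refine ⟨?_, ?_, ?_, ?_, ?_⟩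
    · rw [e1]; exact h1 _ (by omega)
    · rw [e2]; exact h2 _ (by omega)
    · rw [e3]; exact h3 _ (by omega)
    · rw [e4]; exact h4 _ (by omega)
    · rw [e6]; exact h6 _ (by omega)
  have hD0 : (C • E).Δ ≠ 0 := by
    rw [WeierstrassCurve.variableChange_Δ]
    exact mul_ne_zero (pow_ne_zero _ (Units.ne_zero _)) hE
  obtain ⟨m, hm⟩ := val_exp v hD0 (int_disc v _ hint).1
  exact ⟨m, C, hint, hm⟩

theorem disc_spec (v : HeightOneSpectrum (𝓞 K)) (E : WeierstrassCurve K) (hE : E.Δ ≠ 0) :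
    ∃ C : WeierstrassCurve.VariableChange K, IntAt v (C • E) ∧
      v.valuation K (C • E).Δ = exp (-(discExp v E : ℤ)) := by
  obtain ⟨m, hm⟩ := exists_model v E hE
  exact Nat.sInf_mem (s := {m : ℕ | ∃ C : WeierstrassCurve.VariableChange K, IntAt v (C • E) ∧
    v.valuation K (C • E).Δ = exp (-(m : ℤ))}) ⟨m, hm⟩

theorem fv_val (v : HeightOneSpectrum (𝓞 K)) (x : K) :
    fv v x = ((WithZeroMulInt.toNNReal (NumberField.HeightOneSpectrum.absNorm_ne_zero v)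
      (v.valuation K x) : NNReal) : ℝ) := NumberField.FinitePlace.norm_embedding' (v := v) (x := x)

theorem one_lt_N (v : HeightOneSpectrum (𝓞 K)) : (1 : ℝ) < (Ideal.absNorm v.asIdeal : ℝ) := by
  exact_mod_cast NumberField.HeightOneSpectrum.one_lt_absNorm v

theorem fv_exp (v : HeightOneSpectrum (𝓞 K)) {x : K} {m : ℕ}
    (h : v.valuation K x = exp (-(m : ℤ))) :
    Real.log (fv v x) = -((m : ℝ) * Real.log (Ideal.absNorm v.asIdeal : ℝ)) := by
  have h1 : WithZeroMulInt.toNNReal (NumberField.HeightOneSpectrum.absNorm_ne_zero v)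
      (exp (-(m : ℤ))) = (Ideal.absNorm v.asIdeal : NNReal) ^ (-(m : ℤ)) := by
    rw [WithZeroMulInt.toNNReal_neg_apply _ exp_ne_zero]
    rfl
  rw [fv_val, h, h1]
  push_cast
  rw [Real.log_zpow]
  push_cast
  ring

theorem fv_le_one (v : HeightOneSpectrum (𝓞 K)) {x : K} (h : v.valuation K x ≤ 1) :
    fv v x ≤ 1 := by
  rw [fv_val]
  have := (WithZeroMulInt.toNNReal_le_one_iff (e := (Ideal.absNorm v.asIdeal : NNReal))
    (by exact_mod_cast NumberField.HeightOneSpectrum.one_lt_absNorm v)).2 h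
  exact_mod_cast this

/-- the minimal discriminant and the modular invariant -/
theorem lp_le_disc (v : HeightOneSpectrum (𝓞 K)) (E : WeierstrassCurve K) (hE : E.Δ ≠ 0) :
    lp (fv v) (E.c₄ ^ 3 / E.Δ) ≤ discExp v E * Real.log (Ideal.absNorm v.asIdeal : ℝ) := by
  obtain ⟨C, hint, hC⟩ := disc_spec v E hE
  have hD0 : (C • E).Δ ≠ 0 := by
    rw [WeierstrassCurve.variableChange_Δ]
    exact mul_ne_zero (pow_ne_zero _ (Units.ne_zero _)) hE
  have hj : E.c₄ ^ 3 / E.Δ = (C • E).c₄ ^ 3 / (C • E).Δ := by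
    rw [WeierstrassCurve.variableChange_c₄, WeierstrassCurve.variableChange_Δ]
    have : ((C.u⁻¹ : Kˣ) : K) ≠ 0 := Units.ne_zero _
    rw [div_eq_div_iff hE (mul_ne_zero (pow_ne_zero _ this) hE)]
    ring
  have h1 := (int_disc v _ hint).2
  have h2 : fv v (C • E).c₄ ≤ 1 := fv_le_one v h1
  have h3 := fv_exp v hC
  have h4 : 0 < fv v (C • E).Δ := (fv v).pos hD0
  have h5 : fv v (C • E).Δ ≤ 1 := fv_le_one v (int_disc v _ hint).1
  have h6 : (discExp v E : ℝ) * Real.log (Ideal.absNorm v.asIdeal : ℝ) =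
      Real.log ((fv v (C • E).Δ)⁻¹) := by
    rw [Real.log_inv, h3]
    ring
  rw [h6, hj]
  unfold Pool.Agent.Y729.FW.lp
  refine Real.log_le_log (lt_max_of_lt_right one_pos) (max_le ?_ ?_)
  · rw [map_div₀, map_pow, div_eq_mul_inv]
    refine mul_le_of_le_one_left (inv_nonneg.2 h4.le) (pow_le_one₀ ((fv v).nonneg _) h2)
  · exact (one_le_inv₀ h4).2 h5

theorem disc_good (v : HeightOneSpectrum (𝓞 K)) (E : WeierstrassCurve K) (h : GoodAt v E) :
    discExp v E = 0 := by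
  obtain ⟨C, h1, h2, h3, h4, h6, hΔ⟩ := h
  have : discExp v E ≤ 0 := Nat.sInf_le ⟨C, ⟨h1, h2, h3, h4, h6⟩, by
    rw [hΔ]
    simp⟩
  omega

theorem disc_support (E : WeierstrassCurve K) (hE : E.Δ ≠ 0) :
    (Function.support fun v : HeightOneSpectrum (𝓞 K) =>
      (discExp v E : ℝ) * Real.log (Ideal.absNorm v.asIdeal : ℝ)).Finite := by
  refine (Pool.Agent.TH876.TT.bad K E hE).subset ?_
  intro v hv
  rw [Function.mem_support] at hv
  intro hg
  apply hv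
  rw [disc_good v E hg]
  simp

theorem sum_lp_le (E : WeierstrassCurve K) (hE : E.Δ ≠ 0) :
    ∑ᶠ v : HeightOneSpectrum (𝓞 K), lp (fv v) (E.c₄ ^ 3 / E.Δ) ≤
      ∑ᶠ v : HeightOneSpectrum (𝓞 K),
        (discExp v E : ℝ) * Real.log (Ideal.absNorm v.asIdeal : ℝ) :=
  finsum_le_finsum' (lp_support _) (disc_support E hE) fun v => lp_le_disc v E hE

theorem disc_le_of_int (v : HeightOneSpectrum (𝓞 K)) (E : WeierstrassCurve K) (hE : E.Δ ≠ 0)
    (h : IntAt v E) :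
    (discExp v E : ℝ) * Real.log (Ideal.absNorm v.asIdeal : ℝ) ≤ -Real.log (fv v E.Δ) := by
  obtain ⟨m, hm⟩ := val_exp v hE (int_disc v E h).1
  have h1 : discExp v E ≤ m := Nat.sInf_le ⟨1, by rw [one_smul]; exact ⟨h, hm⟩⟩
  rw [fv_exp v hm, neg_neg]
  refine mul_le_mul_of_nonneg_right ?_ (logN_nonneg v)
  exact_mod_cast h1

end

/-- the discriminant of an extension -/
theorem disc_ge (K L : Type) [Field K] [NumberField K] [Field L] [NumberField L] [Algebra K L] :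
    (finrank K L : ℝ) * Real.log |(discr K : ℝ)| ≤ Real.log |(discr L : ℝ)| := by
  have h := natAbs_discr_eq_absNorm_differentIdeal_mul_natAbs_discr_pow K (𝓞 K) L (𝓞 L)
  have hK : (1 : ℝ) ≤ |(discr K : ℝ)| := Pool.Agent.W222.UABC.one_le_disc
  rw [← Real.log_pow]
  refine Real.log_le_log (pow_pos (by linarith) _) ?_
  have hD : differentIdeal (𝓞 K) (𝓞 L) ≠ 0 := differentIdeal_ne_bot
  have h1 : 1 ≤ Ideal.absNorm (differentIdeal (𝓞 K) (𝓞 L)) :=
    Nat.one_le_iff_ne_zero.2 fun h => hD (Ideal.absNorm_eq_zero_iff.1 h)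
  have h2 : (discr K).natAbs ^ finrank K L ≤ (discr L).natAbs := by
    rw [h]
    exact Nat.le_mul_of_pos_left _ h1
  have h3 : (((discr K).natAbs : ℕ) : ℝ) = |(discr K : ℝ)| := by
    rw [Nat.cast_natAbs, Int.cast_abs]
  have h4 : (((discr L).natAbs : ℕ) : ℝ) = |(discr L : ℝ)| := by
    rw [Nat.cast_natAbs, Int.cast_abs]
  rw [← h3, ← h4]
  exact_mod_cast h2

end Pool.Agent.Y729.AE
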