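import Mathlib
import Pool.Agent.Y729.AE.Count
import Pool.Agent.Y729.AE.Min
import Pool.Agent.Y729.FW.Cond

/-!
# Violators of Frey's inequality among the Weil restrictions of elliptic curves over a number field
-/

set_option autoImplicit false

namespace Pool.Agent.Y729.AE

open NumberField IsDedekindDomain Module
open Pool.Agent.H691R3 (fv)
open Pool.Agent.TH876.FH (faltings IsPeriod FullTwo GoodAt badNorm arch)
open Pool.Agent.Y729.FW (lp lh_eq sum_mult logN_nonneg fal_one)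
open Pool.Agent.W222.UABC (eS)
open Pool.Agent.W301.Lin (FS)

/-- the Faltings height of the Weil restriction -/
noncomputable def hRes (K : Type) [Field K] [NumberField K] {L : Type} [Field L] [NumberField L]
    [Algebra K L] (E : WeierstrassCurve L) (τ : InfinitePlace L → UpperHalfPlane) : ℝ :=
  (∑ᶠ v : HeightOneSpectrum (𝓞 L), (discExp v E : ℝ) * Real.log (Ideal.absNorm v.asIdeal : ℝ) +
    ∑ w : InfinitePlace L, (w.mult : ℝ) * arch (τ w) +
    6 * (Real.log |(discr L : ℝ)| - finrank K L * Real.log |(discr K : ℝ)|)) /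
    (12 * finrank ℚ K)

/-- the pairs with bounded height -/
def FamK (K : Type) [Field K] [NumberField K] (g : ℕ) (B : ℝ) :
    Set (IntermediateField K (AlgebraicClosure K) × AlgebraicClosure K) :=
  {p | ∃ (_ : NumberField p.1) (E : WeierstrassCurve p.1) (τ : InfinitePlace p.1 → UpperHalfPlane),
    finrank K p.1 = g ∧ E.Δ ≠ 0 ∧ ((E.c₄ ^ 3 / E.Δ : p.1) : AlgebraicClosure K) = p.2 ∧
    IsPeriod (E.c₄ ^ 3 / E.Δ) τ ∧ hRes K E τ ≤ Real.log B}

/-- the violators -/
def ViolK (K : Type) [Field K] [NumberField K] (g : ℕ) (κ c B : ℝ) :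
    Set (IntermediateField K (AlgebraicClosure K) × AlgebraicClosure K) :=
  {p | ∃ (_ : NumberField p.1) (E : WeierstrassCurve p.1) (τ : InfinitePlace p.1 → UpperHalfPlane),
    finrank K p.1 = g ∧ E.Δ ≠ 0 ∧ ((E.c₄ ^ 3 / E.Δ : p.1) : AlgebraicClosure K) = p.2 ∧
    IsPeriod (E.c₄ ^ 3 / E.Δ) τ ∧ hRes K E τ ≤ Real.log B ∧
    κ * Real.log (badNorm E * (|(discr p.1 : ℝ)| / |(discr K : ℝ)| ^ g) ^ 2) + c < hRes K E τ}

theorem finite_of_card {α : Type} (S : Set α) (M : ℝ)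
    (h : ∀ F : Finset α, (F : Set α) ⊆ S → (F.card : ℝ) ≤ M) : S.Finite ∧ (S.ncard : ℝ) ≤ M := by
  have hfin : S.Finite := by
    by_contra hinf
    obtain ⟨F, hFS, hFc⟩ := (Set.not_finite.1 hinf : S.Infinite).exists_subset_card_eq (⌊M⌋₊ + 1)
    have := h F hFS
    rw [hFc] at this
    push_cast at this
    have h2 := Nat.lt_floor_add_one M
    linarith
  refine ⟨hfin, ?_⟩
  have := h hfin.toFinset (by simp)
  rwa [← Set.ncard_eq_toFinset_card S hfin] at this

/-- the height formulas -/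
theorem hRes_formula {K L : Type} [Field K] [NumberField K] [Field L] [NumberField L]
    [Algebra K L] (E : WeierstrassCurve L) (τ : InfinitePlace L → UpperHalfPlane) :
    12 * (finrank ℚ K : ℝ) * hRes K E τ =
      ∑ᶠ v : HeightOneSpectrum (𝓞 L), (discExp v E : ℝ) *
        Real.log (Ideal.absNorm v.asIdeal : ℝ) +
      ∑ w : InfinitePlace L, (w.mult : ℝ) * arch (τ w) +
      6 * (Real.log |(discr L : ℝ)| - finrank K L * Real.log |(discr K : ℝ)|) := by
  unfold hRes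
  have hne : (12 : ℝ) * (finrank ℚ K : ℝ) ≠ 0 := by
    have : (0 : ℝ) < (finrank ℚ K : ℝ) := by exact_mod_cast (finrank_pos : 0 < finrank ℚ K)
    positivity
  rw [mul_div_cancel₀ _ hne]

/-- the stable height is at most the height of the Weil restriction -/
theorem stable_le {K L : Type} [Field K] [NumberField K] [Field L] [NumberField L]
    [Algebra K L] (E : WeierstrassCurve L) (hE : E.Δ ≠ 0)
    (τ : InfinitePlace L → UpperHalfPlane) :
    12 * (finrank ℚ L : ℝ) * faltings (E.c₄ ^ 3 / E.Δ) τ ≤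
      12 * (finrank ℚ K : ℝ) * hRes K E τ := by
  have h1 := sum_lp_le E hE
  have h2 := disc_ge K L
  have h3 : 12 * (finrank ℚ L : ℝ) * faltings (E.c₄ ^ 3 / E.Δ) τ =
      ∑ᶠ v : HeightOneSpectrum (𝓞 L), Pool.Agent.Y729.FW.lp (fv v) (E.c₄ ^ 3 / E.Δ) +
        ∑ w : InfinitePlace L, (w.mult : ℝ) * arch (τ w) :=
    Pool.Agent.TH876.FH.Hj_faltings _ τ
  rw [h3, hRes_formula]
  linarith

/-- a violator has few bad primes -/
theorem viol_cur {c1 : ℝ} (hc1 : 0 ≤ c1) {K L : Type} [Field K] [NumberField K] [Field L]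
    [NumberField L] [Algebra K L] (g : ℕ) (hfin : finrank K L = g) (E : WeierstrassCurve L)
    (hE : E.Δ ≠ 0) (τ : InfinitePlace L → UpperHalfPlane)
    (hf1 : Height.logHeight₁ (E.c₄ ^ 3 / E.Δ) ≤ (1 + 1) * (12 * (finrank ℚ L : ℝ) *
      faltings (E.c₄ ^ 3 / E.Δ) τ) + c1 * (finrank ℚ L : ℝ))
    {κ c B : ℝ} (hκ : 0 < κ) (hB : 0 ≤ Real.log B) (hH : hRes K E τ ≤ Real.log B)
    (hV : κ * Real.log (badNorm E * (|(discr L : ℝ)| / |(discr K : ℝ)| ^ g) ^ 2) + c <
      hRes K E τ) :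
    Cur L (24 * (finrank ℚ K : ℝ) * Real.log B +
        (|c| / κ + c1 * (finrank ℚ K * g) + 2 * g * Real.log |(discr K : ℝ)|))
      (1 / κ * Real.log B +
        (|c| / κ + c1 * (finrank ℚ K * g) + 2 * g * Real.log |(discr K : ℝ)|))
      (E.c₄ ^ 3 / E.Δ) := by
  have hfd : FiniteDimensional K L := Module.Finite.of_restrictScalars_finite ℚ K L
  have hdK : 0 ≤ Real.log |(discr K : ℝ)| := Real.log_nonneg Pool.Agent.W222.UABC.one_le_disc
  have hdeg : (finrank ℚ L : ℝ) = finrank ℚ K * g := by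
    rw [← finrank_mul_finrank ℚ K L, hfin]
    push_cast
    rfl
  have hd0 : (0 : ℝ) < finrank ℚ K := by
    exact_mod_cast (finrank_pos : 0 < finrank ℚ K)
  have k5 := stable_le (K := K) E hE τ
  have k6 : 12 * (finrank ℚ K : ℝ) * hRes K E τ ≤ 12 * finrank ℚ K * Real.log B :=
    mul_le_mul_of_nonneg_left hH (by positivity)
  have hlk : 0 ≤ 2 * g * Real.log |(discr K : ℝ)| := by positivity
  have hck : 0 ≤ |c| / κ := by positivity
  have hc1k : 0 ≤ c1 * ((finrank ℚ K : ℝ) * g) := by positivity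
  refine ⟨?_, E, hE, rfl, ?_⟩
  · rw [hdeg] at hf1 k5
    linarith
  · have hb1 : 1 ≤ badNorm E := Pool.Agent.TH876.TT.Viol_one_le E
    have hd1 : (1 : ℝ) ≤ |(discr L : ℝ)| := Pool.Agent.W222.UABC.one_le_disc
    have hd2 : (1 : ℝ) ≤ |(discr K : ℝ)| := Pool.Agent.W222.UABC.one_le_disc
    have hq : 0 < |(discr L : ℝ)| / |(discr K : ℝ)| ^ g := by positivity
    rw [Real.log_mul (by linarith) (by positivity), Real.log_pow,
      Real.log_div (by linarith) (by positivity), Real.log_pow] at hV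
    push_cast at hV
    have k6 : κ * (Real.log (badNorm E) + 2 * (Real.log |(discr L : ℝ)| -
        g * Real.log |(discr K : ℝ)|)) ≤ Real.log B + |c| := by
      have := neg_abs_le c
      linarith
    have k7 : Real.log (badNorm E) + 2 * (Real.log |(discr L : ℝ)| -
        g * Real.log |(discr K : ℝ)|) ≤ (Real.log B + |c|) / κ := by
      rw [le_div_iff₀ hκ]
      linarith
    have k8 : (Real.log B + |c|) / κ = 1 / κ * Real.log B + |c| / κ := by ring
    linarith

/-- **The count of the violators** -/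
theorem main3 (d g : ℕ) (e : ℝ) (he : 0 ≤ e) (C : ℝ) (hC : 0 < C)
    (K : Type) [Field K] [NumberField K] (hK : finrank ℚ K = d)
    (hF : ∀ X : ℝ, 1 ≤ X → (FS K g X).Finite ∧ ((FS K g X).ncard : ℝ) ≤ C * X ^ e)
    (κ c δ : ℝ) (hκ : 0 < κ) (hδ : 0 < δ) :
    ∃ M : ℝ, ∀ B : ℝ, 1 ≤ B → (ViolK K g κ c B).Finite ∧
      ((ViolK K g κ c B).ncard : ℝ) ≤ M * B ^ (mx e / κ + δ) := by
  classical
  obtain ⟨c1, hc1, hf1⟩ := fal_one (δ := 1) one_pos
  have hdK : 0 ≤ Real.log |(discr K : ℝ)| := Real.log_nonneg Pool.Agent.W222.UABC.one_le_disc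
  obtain ⟨M, hM, hB⟩ := count3 d g e he C hC (1 / κ) (24 * (finrank ℚ K : ℝ))
    (|c| / κ + c1 * (finrank ℚ K * g) + 2 * g * Real.log |(discr K : ℝ)|) δ (by positivity)
    (by positivity) (by positivity) hδ
  refine ⟨M, fun B hB1 => ?_⟩
  have hB0 : 0 < B := by linarith
  have hlB : 0 ≤ Real.log B := Real.log_nonneg hB1
  refine finite_of_card _ _ fun F hFs => ?_
  refine (hB K hK hF B hB1 F ?_).trans (le_of_eq ?_)
  · intro p hp
    obtain ⟨hnf, E, τ, hfin, hΔ, hj, hτ, hH, hV⟩ := hFs (Finset.mem_coe.2 hp)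
    exact ⟨hnf, E.c₄ ^ 3 / E.Δ, hj, hfin,
      viol_cur hc1 g hfin E hΔ τ (hf1 p.1 _ τ hτ) hκ hlB hH hV⟩
  · congr 2
    rw [mul_one_div]

/-- **Violators of Frey's inequality among the Weil restrictions of elliptic curves** -/
theorem final3 : ∃ a : ℕ → ℝ,
    (∀ c : ℝ, 1 / (16 * (Real.log 2) ^ 2) < c →
      ∀ᶠ g : ℕ in Filter.atTop, a g ≤ c * (Real.log g) ^ 2) ∧
    a 1 = 5 / 2 ∧ (∀ g : ℕ, 2 ≤ g → a g ≤ max (5 / 2) (15 / 8 + eS g / 2)) ∧
    ∀ (K : Type) [Field K] [NumberField K] (g : ℕ), 1 ≤ g → ∀ κ c δ : ℝ, 0 < κ → 0 < δ →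
      ∃ M : ℝ, ∀ B : ℝ, 1 ≤ B → (ViolK K g κ c B).Finite ∧
        ((ViolK K g κ c B).ncard : ℝ) ≤ M * B ^ (a g / κ + δ) := by
  obtain ⟨e, h1, h2, h3, h4, h5⟩ := linnikK
  refine ⟨fun g => mx (e g), fun c hc => ?_, ?_, fun g hg => ?_, ?_⟩
  · have hlog2 : 0 < Real.log 2 := Real.log_pos (by norm_num)
    have hc' : 1 / (8 * (Real.log 2) ^ 2) < 2 * c := by
      have : 1 / (8 * (Real.log 2) ^ 2) = 2 * (1 / (16 * (Real.log 2) ^ 2)) := by
        field_simp
        norm_num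
      rw [this]
      linarith
    obtain ⟨c', hc1, hc2⟩ := exists_between hc'
    have hc0 : 0 < c := lt_trans (by positivity) hc
    have hlog : Filter.Tendsto (fun n : ℕ => Real.log n) Filter.atTop Filter.atTop :=
      Real.tendsto_log_atTop.comp tendsto_natCast_atTop_atTop
    have hsq := (Filter.tendsto_pow_atTop (α := ℝ) two_ne_zero).comp hlog
    have hlim1 : Filter.Tendsto (fun n : ℕ => c * (Real.log n) ^ 2) Filter.atTop Filter.atTop :=
      Filter.Tendsto.const_mul_atTop hc0 hsq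
    have hlim2 : Filter.Tendsto (fun n : ℕ => (2 * c - c') / 2 * (Real.log n) ^ 2) Filter.atTop
        Filter.atTop := Filter.Tendsto.const_mul_atTop (by linarith) hsq
    filter_upwards [h1 _ hc1, hlim1.eventually_ge_atTop (5 / 2),
      hlim2.eventually_ge_atTop (15 / 8)] with n hn1 hn2 hn3
    unfold mx
    refine max_le hn2 ?_
    linarith
  · simp only
    unfold mx
    rw [h4]
    norm_num
  · simp only
    unfold mx
    refine max_le_max le_rfl ?_
    linarith [h3 g hg]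
  · intro K _ _ g hg κ c δ hκ hδ
    obtain ⟨C, hC, hF⟩ := h5 g hg (finrank ℚ K)
    exact main3 (finrank ℚ K) g (e g) (h2 g) C hC K rfl (hF K rfl) κ c δ hκ hδ

end Pool.Agent.Y729.AE
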