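import Mathlib
import Pool.Agent.Y729.AE.Frey
import Pool.Agent.Y729.FW.Low

/-!
# Violators of Frey's inequality among the Weil restrictions of elliptic curves to the rationals
-/

set_option autoImplicit false

namespace Pool.Agent.Y729.AE

open NumberField IsDedekindDomain Module
open Pool.Agent.TH876.FH (faltings IsPeriod FullTwo GoodAt badNorm arch jInv)
open Pool.Agent.Y729.FW (fal_one fal_two j_surj PP PP_inj PP_eval exists_point sum_tri)
open Pool.Agent.W222.UABC (eS)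
open Pool.Agent.W301.Lin (FS)

/-- the pairs with bounded stable height -/
def FamQ (n : ℕ) (B : ℝ) :
    Set (IntermediateField ℚ (AlgebraicClosure ℚ) × AlgebraicClosure ℚ) :=
  {p | ∃ (_ : NumberField p.1) (E : WeierstrassCurve p.1) (τ : InfinitePlace p.1 → UpperHalfPlane),
    finrank ℚ p.1 = n ∧ E.Δ ≠ 0 ∧ ((E.c₄ ^ 3 / E.Δ : p.1) : AlgebraicClosure ℚ) = p.2 ∧
    IsPeriod (E.c₄ ^ 3 / E.Δ) τ ∧ (n : ℝ) * faltings (E.c₄ ^ 3 / E.Δ) τ ≤ Real.log B}

/-- the violators -/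
def ViolQ (n : ℕ) (κ c B : ℝ) :
    Set (IntermediateField ℚ (AlgebraicClosure ℚ) × AlgebraicClosure ℚ) :=
  {p | ∃ (_ : NumberField p.1) (E : WeierstrassCurve p.1) (τ : InfinitePlace p.1 → UpperHalfPlane),
    finrank ℚ p.1 = n ∧ E.Δ ≠ 0 ∧ ((E.c₄ ^ 3 / E.Δ : p.1) : AlgebraicClosure ℚ) = p.2 ∧
    IsPeriod (E.c₄ ^ 3 / E.Δ) τ ∧ (n : ℝ) * faltings (E.c₄ ^ 3 / E.Δ) τ ≤ Real.log B ∧
    κ * Real.log (badNorm E * |(discr p.1 : ℝ)| ^ 2) + c <
      (n : ℝ) * faltings (E.c₄ ^ 3 / E.Δ) τ}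

/-- a violator has few bad primes -/
theorem violQ_cur {c1 : ℝ} (hc1 : 0 ≤ c1) {L : Type} [Field L]
    [NumberField L] (n : ℕ) (hfin : finrank ℚ L = n) (E : WeierstrassCurve L)
    (hE : E.Δ ≠ 0) (τ : InfinitePlace L → UpperHalfPlane)
    (hf1 : Height.logHeight₁ (E.c₄ ^ 3 / E.Δ) ≤ (1 + 1) * (12 * (finrank ℚ L : ℝ) *
      faltings (E.c₄ ^ 3 / E.Δ) τ) + c1 * (finrank ℚ L : ℝ))
    {κ c B : ℝ} (hκ : 0 < κ) (hH : (n : ℝ) * faltings (E.c₄ ^ 3 / E.Δ) τ ≤ Real.log B)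
    (hV : κ * Real.log (badNorm E * |(discr L : ℝ)| ^ 2) + c <
      (n : ℝ) * faltings (E.c₄ ^ 3 / E.Δ) τ) :
    Cur L (24 * Real.log B + (|c| / κ + c1 * n)) (1 / κ * Real.log B + (|c| / κ + c1 * n))
      (E.c₄ ^ 3 / E.Δ) := by
  have hck : 0 ≤ |c| / κ := by positivity
  have hc1k : 0 ≤ c1 * (n : ℝ) := by positivity
  refine ⟨?_, E, hE, rfl, ?_⟩
  · rw [hfin] at hf1
    linarith
  · have hb1 : 1 ≤ badNorm E := Pool.Agent.TH876.TT.Viol_one_le E
    have hd1 : (1 : ℝ) ≤ |(discr L : ℝ)| := Pool.Agent.W222.UABC.one_le_disc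
    rw [Real.log_mul (by linarith) (by positivity), Real.log_pow] at hV
    push_cast at hV
    have k6 : κ * (Real.log (badNorm E) + 2 * Real.log |(discr L : ℝ)|) ≤ Real.log B + |c| := by
      have := neg_abs_le c
      linarith
    have k7 : Real.log (badNorm E) + 2 * Real.log |(discr L : ℝ)| ≤ (Real.log B + |c|) / κ := by
      rw [le_div_iff₀ hκ]
      linarith
    have k8 : (Real.log B + |c|) / κ = 1 / κ * Real.log B + |c| / κ := by ring
    linarith

/-- **The count of the violators** -/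
theorem main4 (n : ℕ) (e : ℝ) (he : 0 ≤ e) (C : ℝ) (hC : 0 < C)
    (hF : ∀ X : ℝ, 1 ≤ X → (FS ℚ n X).Finite ∧ ((FS ℚ n X).ncard : ℝ) ≤ C * X ^ e)
    (κ c δ : ℝ) (hκ : 0 < κ) (hδ : 0 < δ) :
    ∃ M : ℝ, ∀ B : ℝ, 1 ≤ B → (ViolQ n κ c B).Finite ∧
      ((ViolQ n κ c B).ncard : ℝ) ≤ M * B ^ (mx e / κ + δ) := by
  classical
  obtain ⟨c1, hc1, hf1⟩ := fal_one (δ := 1) one_pos
  obtain ⟨M, hM, hB⟩ := count3 1 n e he C hC (1 / κ) 24 (|c| / κ + c1 * n) δ (by positivity)
    (by norm_num) (by positivity) hδ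
  refine ⟨M, fun B hB1 => ?_⟩
  refine finite_of_card _ _ fun F hFs => ?_
  refine (hB ℚ (finrank_self ℚ) hF B hB1 F ?_).trans (le_of_eq ?_)
  · intro p hp
    obtain ⟨hnf, E, τ, hfin, hΔ, hj, hτ, hH, hV⟩ := hFs (Finset.mem_coe.2 hp)
    exact ⟨hnf, E.c₄ ^ 3 / E.Δ, hj, hfin,
      violQ_cur hc1 n hfin E hΔ τ (hf1 p.1 _ τ hτ) hκ hH hV⟩
  · congr 2
    rw [mul_one_div]

/-- **Violators of Frey's inequality among the Weil restrictions of elliptic curves** -/
theorem final4 : ∃ a : ℕ → ℝ,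
    (∀ c : ℝ, 1 / (16 * (Real.log 2) ^ 2) < c →
      ∀ᶠ n : ℕ in Filter.atTop, a n ≤ c * (Real.log n) ^ 2) ∧
    a 1 = 5 / 2 ∧ (∀ n : ℕ, 2 ≤ n → a n ≤ max (5 / 2) (15 / 8 + eS n / 2)) ∧
    ∀ n : ℕ, 1 ≤ n → ∀ κ c δ : ℝ, 0 < κ → 0 < δ →
      ∃ M : ℝ, ∀ B : ℝ, 1 ≤ B → (ViolQ n κ c B).Finite ∧
        ((ViolQ n κ c B).ncard : ℝ) ≤ M * B ^ (a n / κ + δ) := by
  obtain ⟨e, h1, h2, h3, h4, h5⟩ := linnikK
  refine ⟨fun g => mx (e g), fun c hc => ?_, ?_, fun g hg => ?_, ?_⟩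
  · have hlog2 : 0 < Real.log 2 := Real.log_pos (by norm_num)
    have hc' : 1 / (8 * (Real.log 2) ^ 2) < 2 * c := by
      have : 1 / (8 * (Real.log 2) ^ 2) = 2 * (1 / (16 * (Real.log 2) ^ 2)) := by
        field_simp
        norm_num
      rw [this]
      linarith
    obtain ⟨c', hc1, hc2⟩ := exists_between hc'
    have hc0 : 0 < c := lt_trans (by positivity) hc
    have hlog : Filter.Tendsto (fun n : ℕ => Real.log n) Filter.atTop Filter.atTop :=
      Real.tendsto_log_atTop.comp tendsto_natCast_atTop_atTop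
    have hsq := (Filter.tendsto_pow_atTop (α := ℝ) two_ne_zero).comp hlog
    have hlim1 : Filter.Tendsto (fun n : ℕ => c * (Real.log n) ^ 2) Filter.atTop Filter.atTop :=
      Filter.Tendsto.const_mul_atTop hc0 hsq
    have hlim2 : Filter.Tendsto (fun n : ℕ => (2 * c - c') / 2 * (Real.log n) ^ 2) Filter.atTop
        Filter.atTop := Filter.Tendsto.const_mul_atTop (by linarith) hsq
    filter_upwards [h1 _ hc1, hlim1.eventually_ge_atTop (5 / 2),
      hlim2.eventually_ge_atTop (15 / 8)] with n hn1 hn2 hn3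
    unfold mx
    refine max_le hn2 ?_
    linarith
  · simp only
    unfold mx
    rw [h4]
    norm_num
  · simp only
    unfold mx
    refine max_le_max le_rfl ?_
    linarith [h3 g hg]
  · intro n hn κ c δ hκ hδ
    obtain ⟨C, hC, hF⟩ := h5 n hn 1
    exact main4 n (e n) (h2 n) C hC (hF ℚ (finrank_self ℚ)) κ c δ hκ hδ

/-- a curve with a given modular invariant -/
def jc {L : Type} [Field L] (j : L) : WeierstrassCurve L :=
  ⟨j - 1728, 0, 0, -36 * (j - 1728) ^ 3, -(j - 1728) ^ 5⟩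

theorem jc_disc {L : Type} [Field L] (j : L) : (jc j).Δ = j ^ 2 * (j - 1728) ^ 9 := by
  unfold jc WeierstrassCurve.Δ WeierstrassCurve.b₂ WeierstrassCurve.b₄ WeierstrassCurve.b₆
    WeierstrassCurve.b₈
  ring

theorem jc_c4 {L : Type} [Field L] (j : L) : (jc j).c₄ = j * (j - 1728) ^ 3 := by
  unfold jc WeierstrassCurve.c₄ WeierstrassCurve.b₂ WeierstrassCurve.b₄
  ring

theorem jc_j {L : Type} [Field L] (j : L) (h0 : j ≠ 0) (h1 : j ≠ 1728) :
    (jc j).c₄ ^ 3 / (jc j).Δ = j := by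
  have h2 : j - 1728 ≠ 0 := sub_ne_zero.2 h1
  rw [jc_disc, jc_c4, div_eq_iff (mul_ne_zero (pow_ne_zero _ h0) (pow_ne_zero _ h2))]
  ring

/-- **Many members of the family** -/
theorem lowQ (n : ℕ) (hn : 1 ≤ n) : ∃ b : ℝ, 0 < b ∧ ∃ B₀ : ℝ, ∀ B : ℝ, B₀ ≤ B →
    ∃ F : Finset (IntermediateField ℚ (AlgebraicClosure ℚ) × AlgebraicClosure ℚ),
      (F : Set (IntermediateField ℚ (AlgebraicClosure ℚ) × AlgebraicClosure ℚ)) ⊆ FamQ n B ∧
      b * B ^ (6 * (n + 1)) ≤ F.card := by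
  classical
  obtain ⟨c1, hc1, hf1⟩ := fal_two
  have hl2 : 0 ≤ Real.log 2 := Real.log_nonneg (by norm_num)
  have hn0 : (0 : ℝ) < n := by exact_mod_cast hn
  set s : ℝ := Real.exp (-((c1 + Real.log 2) * n / 12)) with hs
  have hs0 : 0 < s := Real.exp_pos _
  have hs1 : Real.log s = -((c1 + Real.log 2) * n / 12) := by rw [hs, Real.log_exp]
  refine ⟨(1 / 8) ^ n * s ^ (6 * (n + 1)), by positivity, 2 ^ n / s, fun B hB => ?_⟩
  have hB1 : (2 : ℝ) ^ n ≤ s * B := by
    rw [div_le_iff₀ hs0] at hB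
    linarith
  have hsB : 0 < s * B := lt_of_lt_of_le (by positivity) hB1
  have hB0 : 0 < B := by
    by_contra hc
    have := mul_nonpos_of_nonneg_of_nonpos hs0.le (not_lt.1 hc)
    linarith
  set T : ℝ := (s * B) ^ ((12 : ℝ) / n) with hT
  have hT0 : 0 < T := Real.rpow_pos_of_pos hsB _
  have hT4 : 4 ≤ T := by
    have h1 : ((2 : ℝ) ^ n) ^ ((12 : ℝ) / n) ≤ T :=
      Real.rpow_le_rpow (by positivity) hB1 (by positivity)
    have h2 : ((2 : ℝ) ^ n) ^ ((12 : ℝ) / n) = 4096 := by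
      rw [← Real.rpow_natCast, ← Real.rpow_mul (by norm_num)]
      have : (n : ℝ) * (12 / n) = 12 := by field_simp
      rw [this]
      norm_num
    linarith
  set N : Fin n → ℕ := fun i => ⌊T ^ (n - (i : ℕ)) / 4⌋₊ with hN
  set S : Finset (Fin n → ℕ) := Fintype.piFinset fun i => Finset.range (N i) with hS
  set c : (Fin n → ℕ) → Fin n → ℤ := fun b i =>
    4 * (b i : ℤ) + (if (i : ℕ) = 0 then 2 else 0) with hc
  have hcinj : ∀ b b' : Fin n → ℕ, c b = c b' → b = b' := by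
    intro b b' h
    funext i
    have h1 := congrFun h i
    simp only [hc] at h1
    omega
  have hcnn : ∀ b i, 0 ≤ c b i := by
    intro b i
    simp only [hc]
    split_ifs <;> omega
  have hpt : ∀ b ∈ S, ∃ (L : IntermediateField ℚ (AlgebraicClosure ℚ)) (_ : NumberField L) (l : L),
      Module.finrank ℚ L = n ∧ l ≠ 0 ∧ l ≠ 1 ∧
      minpoly ℚ (l : AlgebraicClosure ℚ) = (PP n (c b)).map (Int.castRingHom ℚ) ∧
      Height.logHeight₁ l ≤ n * Real.log (2 * T) := by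
    intro b hb
    rw [hS, Fintype.mem_piFinset] at hb
    refine exists_point n hn (c b) (by linarith) (fun i => ?_) ?_ (fun i => ?_) (fun i => ?_)
    · simp only [hc]
      split_ifs <;> omega
    · simp only [hc, if_true]
      omega
    · exact hcnn b i
    · have h1 := Finset.mem_range.1 (hb i)
      have h2 : ((N i : ℕ) : ℝ) ≤ T ^ (n - (i : ℕ)) / 4 := Nat.floor_le (by positivity)
      have h3 : c b i ≤ 4 * (N i : ℤ) := by
        simp only [hc]
        split_ifs <;> omega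
      have h4 : (c b i : ℝ) ≤ 4 * (N i : ℝ) := by exact_mod_cast h3
      have h5 : 2 * T / 2 = T := by ring
      rw [h5]
      linarith
  choose! Lf hnf lf hfin h0 h1 hmin hht using hpt
  have h1728 : ∀ b ∈ S, lf b ≠ 1728 := by
    intro b hb heq
    have e1 : Polynomial.aeval (lf b : AlgebraicClosure ℚ) (minpoly ℚ (lf b : AlgebraicClosure ℚ)) =
        0 := minpoly.aeval _ _
    have e2 : (lf b : AlgebraicClosure ℚ) = 1728 := by
      rw [heq]
      rfl
    rw [hmin b hb, e2] at e1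
    have e3 : Polynomial.aeval (1728 : AlgebraicClosure ℚ) (PP n (c b)) = 0 := by
      have := Polynomial.aeval_map_algebraMap (A := ℚ) (B := AlgebraicClosure ℚ)
        (1728 : AlgebraicClosure ℚ) (PP n (c b))
      rw [← this]
      exact e1
    have e3' := (PP_eval n (c b) (1728 : AlgebraicClosure ℚ)).symm.trans e3
    have e4 : (((1728 : ℤ) ^ n + ∑ i : Fin n, c b i * 1728 ^ (i : ℕ) : ℤ) :
        AlgebraicClosure ℚ) = 0 := by
      push_cast
      exact e3'
    have e5 : (1728 : ℤ) ^ n + ∑ i : Fin n, c b i * 1728 ^ (i : ℕ) = 0 := by exact_mod_cast e4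
    have e6 : 0 ≤ ∑ i : Fin n, c b i * 1728 ^ (i : ℕ) :=
      Finset.sum_nonneg fun i _ => mul_nonneg (hcnn b i) (by positivity)
    have e7 : (0 : ℤ) < 1728 ^ n := by positivity
    omega
  set Ψ : (Fin n → ℕ) → IntermediateField ℚ (AlgebraicClosure ℚ) × AlgebraicClosure ℚ :=
    fun b => (Lf b, (lf b : AlgebraicClosure ℚ)) with hΨ
  refine ⟨S.image Ψ, ?_, ?_⟩
  · intro p hp
    obtain ⟨b, hb, rfl⟩ := Finset.mem_image.1 (Finset.mem_coe.1 hp)
    have : NumberField (Lf b) := hnf b hb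
    have hjj := jc_j (lf b) (h0 b hb) (h1728 b hb)
    have hτ : ∀ w : InfinitePlace (Lf b), ∃ τ : UpperHalfPlane, jInv τ = w.embedding (lf b) :=
      fun w => j_surj _
    choose τ hτ using hτ
    refine ⟨hnf b hb, jc (lf b), τ, hfin b hb, ?_, ?_, ?_, ?_⟩
    · rw [jc_disc]
      exact mul_ne_zero (pow_ne_zero _ (h0 b hb)) (pow_ne_zero _ (sub_ne_zero.2 (h1728 b hb)))
    · rw [hjj]
    · rw [hjj]
      exact hτ
    · rw [hjj]
      have k1 := hf1 (Lf b) (lf b) τ hτ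
      have k3 := hht b hb
      rw [hfin b hb] at k1
      have k4 : Real.log (2 * T) = Real.log 2 + 12 / n * Real.log (s * B) := by
        rw [Real.log_mul two_ne_zero hT0.ne', hT, Real.log_rpow hsB]
      have k5 : (n : ℝ) * Real.log (2 * T) = n * Real.log 2 + 12 * (Real.log s + Real.log B) := by
        rw [k4, Real.log_mul hs0.ne' hB0.ne']
        field_simp
      rw [k5] at k3
      rw [hs1] at k3
      linarith
  · have hinj : Set.InjOn Ψ (S : Set (Fin n → ℕ)) := by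
      intro b hb b' hb' hbb
      rw [Finset.mem_coe] at hb hb'
      have hbb' : (lf b : AlgebraicClosure ℚ) = (lf b' : AlgebraicClosure ℚ) :=
        congrArg Prod.snd hbb
      have e1 := hmin b hb
      have e2 := hmin b' hb'
      rw [hbb', e2] at e1
      exact (hcinj _ _ (PP_inj _ _ _
        (Polynomial.map_injective _ (RingHom.injective_int _) e1))).symm
    rw [Finset.card_image_of_injOn hinj]
    have h3 : S.card = ∏ i : Fin n, N i := by
      rw [hS, Fintype.card_piFinset]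
      simp
    have h4 : ∏ i : Fin n, (T ^ (n - (i : ℕ)) * (1 / 8)) ≤ ∏ i : Fin n, ((N i : ℕ) : ℝ) := by
      refine Finset.prod_le_prod (fun i _ => by positivity) fun i _ => ?_
      have h5 : T ≤ T ^ (n - (i : ℕ)) := by
        have := i.2
        exact le_self_pow₀ (by linarith) (by omega)
      have h6 : T ^ (n - (i : ℕ)) / 4 < (N i : ℝ) + 1 := Nat.lt_floor_add_one _
      have h7 : 1 ≤ N i := by
        simp only [hN]
        rw [Nat.one_le_floor_iff]
        linarith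
      have h8 : (1 : ℝ) ≤ N i := by exact_mod_cast h7
      linarith
    have h5 : ∏ i : Fin n, (T ^ (n - (i : ℕ)) * (1 / 8)) =
        (s * B) ^ (6 * (n + 1)) * (1 / 8) ^ n := by
      rw [Finset.prod_mul_distrib, Finset.prod_const, Finset.card_univ, Fintype.card_fin,
        Finset.prod_pow_eq_pow_sum]
      congr 1
      rw [hT, ← Real.rpow_natCast, ← Real.rpow_mul hsB.le, ← Real.rpow_natCast]
      congr 1
      have h6 : ((∑ i : Fin n, (n - (i : ℕ)) : ℕ) : ℝ) * 2 = (n + 1) * n := by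
        exact_mod_cast sum_tri n
      push_cast at h6 ⊢
      field_simp
      linarith
    rw [h3]
    push_cast
    rw [h5] at h4
    refine le_trans (le_of_eq ?_) h4
    rw [mul_pow]
    ring

end Pool.Agent.Y729.AE
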